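import Pool.Agent.Helper67_MA2.Centres

set_option autoImplicit false

namespace Helper67_MA2

open Finset Classical Helper42_MA Filter

/-- The number of centres used by the block protocol. -/
noncomputable def numB (n t : ℕ) : ℕ :=
  ⌊(n * (3 * Real.log (Nat.clog 2 n)) / (Nat.clog 2 n ^ 3 : ℕ) + 1
      + n * Real.exp (-(3 * Real.log (Nat.clog 2 n)))) +
    (t * (3 * Real.log (Nat.clog 2 n)) / (Nat.clog 2 n / (170 * Nat.clog 2 (Nat.clog 2 n)) : ℕ) + 1
      + n * Real.exp (-(3 * Real.log (Nat.clog 2 n)))) + 1⌋₊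

theorem ev_numB : ∀ᶠ n : ℕ in atTop, ∀ t : ℕ,
    (numB n t : ℝ) ≤ 16000 * (t * Real.log (Real.log n) ^ 2 / Real.log n)
      + (3 * (n * Real.log (Nat.clog 2 n) / (Nat.clog 2 n : ℝ) ^ 3) + 3
        + 2 * (n / (Nat.clog 2 n : ℝ) ^ 3)) := by
  filter_upwards [ev_facts] with n hn t
  obtain ⟨h3, e1, e2, e3, hLL, hL, e4, e5, hsq⟩ := hn
  set l := Nat.clog 2 n with hl
  set lam := Nat.clog 2 l with hlam
  set m := l / (170 * lam) with hm
  have hm2 : 2 ≤ m := by
    rw [hm, Nat.le_div_iff_mul_le (by omega)]; omega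
  have hmpos : (0:ℝ) < m := by
    have : 0 < m := by omega
    exact_mod_cast this
  have hl0 : (0:ℝ) < l := by linarith
  have hexp : Real.exp (-(3 * Real.log l)) = 1 / (l:ℝ) ^ 3 := by
    rw [Real.exp_neg, mul_comm, Real.exp_mul, Real.exp_log hl0, one_div]
    congr 1
    exact_mod_cast Real.rpow_natCast (l:ℝ) 3
  have hm3 : l ≤ 340 * lam * m := by
    have h6 := Nat.mod_lt l (show 0 < 170 * lam by omega)
    have h7 := Nat.div_add_mod l (170 * lam)
    rw [← hm] at h7
    nlinarith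
  have hm3' : (l:ℝ) ≤ 340 * lam * m := by exact_mod_cast hm3
  have hinv : (1:ℝ) / m ≤ 1700 * (Real.log (Real.log n) / Real.log n) := by
    rw [div_le_iff₀ hmpos]
    have h8 : Real.log n ≤ 1700 * Real.log (Real.log n) * m := by
      calc Real.log n ≤ l := e2
        _ ≤ 340 * lam * m := hm3'
        _ ≤ 340 * (5 * Real.log (Real.log n)) * m := by gcongr
        _ = _ := by ring
    have h9 : 1700 * (Real.log (Real.log n) / Real.log n) * m
        = (1700 * Real.log (Real.log n) * m) / Real.log n := by ring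
    rw [h9, le_div_iff₀ (by linarith)]
    linarith
  have hlog3 : Real.log l ≤ 3 * Real.log (Real.log n) := by
    have h1 := Real.log_le_log (by linarith) e1
    rw [Real.log_mul (by norm_num) (by linarith)] at h1
    have h5 : Real.log 3 ≤ 2 := by
      have := Real.log_le_sub_one_of_pos (show (0:ℝ) < 3 by norm_num)
      linarith
    linarith
  have hlog0 : 0 ≤ Real.log l := Real.log_natCast_nonneg l
  have hfl : (numB n t : ℝ) ≤ (n * (3 * Real.log l) / (l ^ 3 : ℕ) + 1
      + n * Real.exp (-(3 * Real.log l))) + (t * (3 * Real.log l) / m + 1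
      + n * Real.exp (-(3 * Real.log l))) + 1 := by
    unfold numB
    apply Nat.floor_le
    positivity
  rw [hexp] at hfl
  have h1 : (t:ℝ) * (3 * Real.log l) / m ≤ 15300 * (t * Real.log (Real.log n) ^ 2 / Real.log n) := by
    calc (t:ℝ) * (3 * Real.log l) / m = t * (3 * Real.log l) * (1 / m) := by ring
      _ ≤ t * (3 * (3 * Real.log (Real.log n)))
          * (1700 * (Real.log (Real.log n) / Real.log n)) := by gcongr
      _ = _ := by ring
  have h2 : (n:ℝ) * (3 * Real.log l) / (l ^ 3 : ℕ) = 3 * (n * Real.log l / (l:ℝ) ^ 3) := by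
    push_cast; ring
  have h4 : (n:ℝ) * (1 / (l:ℝ) ^ 3) = n / (l:ℝ) ^ 3 := by ring
  rw [h2, h4] at hfl
  have h5 : 0 ≤ t * Real.log (Real.log n) ^ 2 / Real.log n := by positivity
  linarith

/-- Cost of the marks. -/
theorem ev_markB : ∀ᶠ n : ℕ in atTop, ∀ t Q : ℕ, Q ≤ n →
    Real.log (Fintype.card (Sparse n (Mark (Fin (Q + 1))) (none, none, none) (3 * numB n t)))
      ≤ 300000 * (t * Real.log (Real.log n) ^ 2 * (Real.log (Q + 1) + Real.log (Real.log n))
        / Real.log n) + 1000 * (n / Real.log n) := by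
  filter_upwards [ev_facts, ev_numB] with n hn hn2 t Q hQ
  obtain ⟨h3, e1, e2, e3, hLL, hL, e4, e5, hsq⟩ := hn
  have hK := hn2 t
  set l := Nat.clog 2 n with hl
  set K := numB n t with hKdef
  set LL := Real.log (Real.log n) with hLLdef
  set L := Real.log (n:ℝ) with hLdef
  have hn0 : (0:ℝ) < n := by
    have : 0 < n := by omega
    exact_mod_cast this
  have hl1 : (1:ℝ) ≤ l := by linarith
  have hl0 : (0:ℝ) < l := by linarith
  have hcard : (Fintype.card (Mark (Fin (Q + 1))) : ℝ) = (Q + 2) ^ 3 := by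
    have : Fintype.card (Mark (Fin (Q + 1))) = (Q + 2) ^ 3 := by
      simp only [Mark, Fintype.card_prod, Fintype.card_option, Fintype.card_fin]
      ring
    rw [this]; push_cast; ring
  have hQ0 : (0:ℝ) ≤ Q := by positivity
  have hz : (1:ℝ) ≤ ((Q:ℝ) + 2) ^ 3 * l := by
    have : (1:ℝ) ≤ ((Q:ℝ) + 2) ^ 3 := one_le_pow₀ (by linarith)
    nlinarith
  have h := log_card_sparse_le n (Mark (Fin (Q + 1))) (none, none, none) (3 * K)
    (((Q:ℝ) + 2) ^ 3 * l) hz
  rw [hcard] at h
  have e : (n:ℝ) * ((Q:ℝ) + 2) ^ 3 / (((Q:ℝ) + 2) ^ 3 * l) = n / l := by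
    field_simp
  rw [e] at h
  refine h.trans ?_
  have hlog1 : Real.log (((Q:ℝ) + 2) ^ 3 * l) = 3 * Real.log (Q + 2) + Real.log l := by
    rw [Real.log_mul (by positivity) (by positivity), Real.log_pow]; norm_num
  have hlog2 : Real.log ((Q:ℝ) + 2) ≤ Real.log (Q + 1) + LL := by
    have h1 : ((Q:ℝ) + 2) ≤ (Q + 1) * 2 := by linarith
    have h2 := Real.log_le_log (by positivity) h1
    rw [Real.log_mul (by positivity) (by norm_num)] at h2
    have h4 := Real.log_two_lt_d9
    linarith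
  have hlog3 : Real.log l ≤ 3 * LL := by
    have h1 := Real.log_le_log (by linarith) e1
    rw [Real.log_mul (by norm_num) (by linarith)] at h1
    have h5 : Real.log 3 ≤ 2 := by
      have := Real.log_le_sub_one_of_pos (show (0:ℝ) < 3 by norm_num)
      linarith
    linarith
  have hq0 : 0 ≤ Real.log ((Q:ℝ) + 1) := Real.log_nonneg (by linarith)
  set A := Real.log ((Q:ℝ) + 1) + LL with hA
  have hlog4 : Real.log (((Q:ℝ) + 2) ^ 3 * l) ≤ 6 * A := by
    rw [hlog1]; linarith
  have hA0 : 0 ≤ A := by linarith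
  have hLLL : LL ≤ L := by
    have := Real.log_le_sub_one_of_pos (show (0:ℝ) < L by linarith)
    linarith
  have hAL : A ≤ 3 * L := by
    have h1 : (Q:ℝ) + 1 ≤ n * 2 := by
      have : (Q:ℝ) ≤ n := by exact_mod_cast hQ
      have : (1:ℝ) ≤ n := by exact_mod_cast (show 1 ≤ n by omega)
      linarith
    have h2 := Real.log_le_log (by positivity) h1
    rw [Real.log_mul (by positivity) (by norm_num)] at h2
    have h4 := Real.log_two_lt_d9
    linarith
  have hAl : A ≤ 3 * l := by linarith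
  have hlogl : Real.log l ≤ l := by
    have := Real.log_le_sub_one_of_pos hl0
    linarith
  have hlogl0 : 0 ≤ Real.log l := Real.log_natCast_nonneg l
  have hnl : (n:ℝ) / l ≤ n / L := by gcongr
  have b1 : 3 * (n * Real.log l / (l:ℝ) ^ 3) * A ≤ 9 * (n / L) := by
    calc 3 * ((n:ℝ) * Real.log l / (l:ℝ) ^ 3) * A ≤ 3 * ((n:ℝ) * l / (l:ℝ) ^ 3) * (3 * l) := by
          gcongr
      _ = 9 * ((n:ℝ) / l) := by field_simp; ring
      _ ≤ 9 * (n / L) := by gcongr
  have b2 : (3:ℝ) * A ≤ 9 * (n / L) := by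
    have : L ≤ n / L := by rw [le_div_iff₀ (by linarith)]; exact hsq
    linarith
  have b3 : 2 * (n / (l:ℝ) ^ 3) * A ≤ 6 * (n / L) := by
    calc 2 * ((n:ℝ) / (l:ℝ) ^ 3) * A ≤ 2 * ((n:ℝ) / (l:ℝ) ^ 3) * (3 * l) := by gcongr
      _ = 6 * ((n:ℝ) / (l:ℝ) ^ 2) := by field_simp; ring
      _ ≤ 6 * ((n:ℝ) / l) := by
          gcongr
          calc (l:ℝ) = l * 1 := by ring
            _ ≤ l * l := by gcongr
            _ = l ^ 2 := by ring
      _ ≤ 6 * (n / L) := by gcongr
  have hlog0 : 0 ≤ Real.log (((Q:ℝ) + 2) ^ 3 * l) := Real.log_nonneg hz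
  have hK3 : ((3 * K : ℕ) : ℝ) * Real.log (((Q:ℝ) + 2) ^ 3 * l)
      ≤ 288000 * (t * LL ^ 2 / L * A) + 432 * (n / L) := by
    calc ((3 * K : ℕ) : ℝ) * Real.log (((Q:ℝ) + 2) ^ 3 * l)
        = 3 * K * Real.log (((Q:ℝ) + 2) ^ 3 * l) := by push_cast; ring
      _ ≤ 3 * (16000 * (t * LL ^ 2 / L) + (3 * (n * Real.log l / (l:ℝ) ^ 3) + 3
        + 2 * (n / (l:ℝ) ^ 3))) * (6 * A) := by gcongr
      _ = 288000 * (t * LL ^ 2 / L * A) + 18 * (3 * (n * Real.log l / (l:ℝ) ^ 3) * A
          + 3 * A + 2 * (n / (l:ℝ) ^ 3) * A) := by ring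
      _ ≤ 288000 * (t * LL ^ 2 / L * A) + 18 * (9 * (n / L) + 9 * (n / L) + 6 * (n / L)) := by
          gcongr
      _ = _ := by ring
  have hfin : t * LL ^ 2 * A / L = t * LL ^ 2 / L * A := by ring
  rw [hfin]
  have hX0 : 0 ≤ t * LL ^ 2 / L * A := by positivity
  have hn1 : 0 ≤ (n:ℝ) / L := by positivity
  linarith

theorem blocks_core : ∃ N0 : ℕ, ∀ n : ℕ, N0 ≤ n → ∀ M : ℕ, 1 ≤ M →
    ∀ (σ : Fin M → Equiv.Perm (Fin n)) (t Q : ℕ), Q ≤ n →
    HasMA n (700000 * (Real.log M + t * Real.log (Real.log n) ^ 2 *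
      (Real.log (Q + 1) + Real.log (Real.log n)) / Real.log n + n / Real.log n))
      (YesB n M σ t Q) (fun x y => ¬ (x ⊔ y).Connected) := by
  obtain ⟨N1, hN1⟩ := engineB_final
  obtain ⟨N2, hN2⟩ := eventually_atTop.mp (ev_facts.and ev_markB)
  refine ⟨N1 + N2, fun n hn M hM σ t Q hQn => ?_⟩
  obtain ⟨⟨h3, e1, e2, e3, hLL, hL, e4, e5, hsq⟩, f4⟩ := hN2 n (by omega)
  have f4 := f4 t Q hQn
  set l := Nat.clog 2 n with hl
  set lam := Nat.clog 2 l with hlam
  set m := l / (170 * lam) with hm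
  have hm2 : 2 ≤ m := by
    rw [hm, Nat.le_div_iff_mul_le (by omega)]; omega
  have hl400 : 400 ≤ l := by omega
  obtain ⟨D, hD⟩ : ∃ D, l ^ 3 = D + 1 := by
    have : 0 < l ^ 3 := by positivity
    exact ⟨l ^ 3 - 1, by omega⟩
  obtain ⟨code, hcode⟩ := exists_code3 (n := n) (l := l) (Nat.le_pow_clog (by norm_num) n)
  set K := 3 * numB n t with hK
  have hFn : Nonempty (Fin n) := ⟨⟨0, by omega⟩⟩
  have hFM : Nonempty (Fin M) := ⟨⟨0, by omega⟩⟩
  have hWne : Nonempty (Fin M × Fin n × Sparse n (Mark (Fin (Q + 1))) (none, none, none) K) := by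
    infer_instance
  have hR : 85 * (lam * (m + m)) ≤ l := by
    have := Nat.div_mul_le_self l (170 * lam)
    rw [← hm] at this
    calc 85 * (lam * (m + m)) = m * (170 * lam) := by ring
      _ ≤ l := this
  have main := hN1 n (by omega) (2 * l + 1) (m + m) D (by omega) hD.ge hR
    (Fin M × Fin n × Sparse n (Mark (Fin (Q + 1))) (none, none, none) K)
    (fun w _ => (univ.filter (fun s => (w.2.2.1 s).2.1 ≠ none)).card + 1
      = (univ.filter (fun s => (w.2.2.1 s).1 ≠ none)).card ∧ (w.2.2.1 w.2.1).1 ≠ none)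
    (fun _ _ => True)
    (fun w x u => code (ptr (restr (blk (σ w.1)) x) ((σ w.1).symm u), ptr x ((σ w.1).symm u),
      decide (hasEntry (fun a b : Fin (Q + 1) => a < b) x w.2.2.1 ((σ w.1).symm u))))
    (fun w y v β => badB code (σ w.1) w.2.2.1 w.2.1 y v β)
    (YesB n M σ t Q) (fun x y => ¬ (x ⊔ y).Connected)
    (by
      rintro x y ⟨hG, hdist, i, hi⟩
      rw [Nat.card_eq_fintype_card] at hi
      obtain ⟨M0, hM1, hM2⟩ := exists_centresB x y (blk (σ i)) hG D m t (by omega) hi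
        (3 * Real.log l) (by
          have := Real.log_natCast_nonneg l
          linarith)
      have hM3 : M0.card ≤ numB n t := by
        apply Nat.le_floor
        rw [← hl, hD, ← hlam, ← hm]
        exact hM2
      obtain ⟨r⟩ := hG.nonempty
      obtain ⟨w, m0, hgood, hcard⟩ := exists_good (fun a b : Fin (Q + 1) => a < b) x y
        (TT (blk (σ i)) x y D m) hG M0 hM1 r Q (fun u => hdist u r)
        (fun k => Fin.ofNat (Q + 1) k) (by
          intro k hk
          rw [Fin.lt_def]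
          simp only [Fin.ofNat_eq_cast, Fin.val_natCast]
          rw [Nat.mod_eq_of_lt (by omega), Nat.mod_eq_of_lt (by omega)]
          omega)
      refine ⟨(i, m0, ⟨w, ?_⟩), ⟨?_, ?_⟩, trivial, ?_⟩
      · have h5 := hcard.trans (show 3 * M0.card ≤ K by omega)
        refine le_trans (le_of_eq ?_) h5
        congr 1
        ext v
        simp
      · exact hgood.count
      · exact hgood.root
      · intro v _
        exact not_bad_of_good (by omega) code hcode (σ i) w m0 x y hgood v)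
    (by
      rintro x y hno ⟨i, m0, w⟩ ⟨hcount, hroot⟩ _
      simp only at hcount hroot
      by_contra hcon
      apply hno
      have hgood : Good (fun a b : Fin (Q + 1) => a < b) x y (TT (blk (σ i)) x y D m) w.1 m0 := by
        apply good_of_local _ _ _ _ _ _ hcount hroot
        intro s s'
        by_contra hbad
        exact hcon (exists_bad code (σ i) w.1 m0 x y s s' hbad)
      exact connected_of_good x y _ w.1 m0 (fun s => (stp_reachable x y (blk (σ i)) s D m).1) hgood)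
  refine main.mono ?_ (fun _ _ h => h) (fun _ _ h => h)
  have hn0 : (0:ℝ) < n := by
    have : 0 < n := by omega
    exact_mod_cast this
  have hM0 : (0:ℝ) < M := by exact_mod_cast (show 0 < M by omega)
  have c1 : (0:ℝ) < Fintype.card (Sparse n (Mark (Fin (Q + 1))) (none, none, none) K) := by
    exact_mod_cast Fintype.card_pos
  have hlogW : Real.log (Fintype.card
      (Fin M × Fin n × Sparse n (Mark (Fin (Q + 1))) (none, none, none) K))
      = Real.log M + (Real.log n
        + Real.log (Fintype.card (Sparse n (Mark (Fin (Q + 1))) (none, none, none) K))) := by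
    rw [Fintype.card_prod, Fintype.card_prod, Fintype.card_fin, Fintype.card_fin]
    push_cast
    rw [Real.log_mul hM0.ne' (by positivity), Real.log_mul hn0.ne' c1.ne']
  rw [hlogW]
  set LL := Real.log (Real.log n) with hLLdef
  set L := Real.log (n:ℝ) with hLdef
  have hl0 : (0:ℝ) < l := by linarith
  have hQ0 : (0:ℝ) ≤ Q := by positivity
  have hq0 : 0 ≤ Real.log ((Q:ℝ) + 1) := Real.log_nonneg (by linarith)
  have hlogM : 0 ≤ Real.log (M:ℝ) := Real.log_natCast_nonneg M
  have hX0 : 0 ≤ t * LL ^ 2 * (Real.log (Q + 1) + LL) / L := by positivity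
  have hnl : (n:ℝ) / l ≤ n / L := by gcongr
  have hLn : L ≤ n / L := by rw [le_div_iff₀ (by linarith)]; exact hsq
  linarith

/-- The block protocol for all `Q`. -/
theorem blocks_cost : ∃ N0 : ℕ, ∀ n : ℕ, N0 ≤ n → ∀ M : ℕ, 1 ≤ M →
    ∀ (σ : Fin M → Equiv.Perm (Fin n)) (t Q : ℕ),
    HasMA n (700000 * (Real.log M + t * Real.log (Real.log n) ^ 2 *
      (Real.log (Q + 1) + Real.log (Real.log n)) / Real.log n + n / Real.log n))
      (YesB n M σ t Q) (fun x y => ¬ (x ⊔ y).Connected) := by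
  obtain ⟨N1, hN1⟩ := blocks_core
  obtain ⟨N2, hN2⟩ := eventually_atTop.mp ev_facts
  refine ⟨N1 + N2, fun n hn M hM σ t Q => ?_⟩
  obtain ⟨h3, e1, e2, e3, hLL, hL, e4, e5, hsq⟩ := hN2 n (by omega)
  refine (hN1 n (by omega) M hM σ t (min Q n) (min_le_right _ _)).mono ?_ ?_ (fun _ _ h => h)
  · have h1 : ((min Q n : ℕ) : ℝ) ≤ Q := by exact_mod_cast min_le_left _ _
    gcongr
  · rintro x y ⟨hG, hd, i, hi⟩
    refine ⟨hG, fun u v => le_min (hd u v) ?_, i, hi⟩
    obtain ⟨p, hp, hp2⟩ := hG.exists_path_of_dist u v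
    have h4 := hp.length_lt
    rw [Fintype.card_fin] at h4
    omega

end Helper67_MA2
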