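import Mathlib

set_option autoImplicit false

namespace Helper67_MA2

open Finset Classical

/-- Greedy hitting set with a general universe. -/
theorem greedy_hit {κ : Type} [Fintype κ] {n : ℕ} (S : Finset (Fin n)) (T : Fin n → Finset κ)
    (k t : ℕ) (hk : 1 ≤ k) (ht : Fintype.card κ ≤ t) (hT : ∀ s ∈ S, k ≤ (T s).card) (L : ℝ)
    (hL : 0 ≤ L) :
    ∃ M : Finset κ, (∀ s ∈ S, ∃ u ∈ T s, u ∈ M) ∧
      (M.card : ℝ) ≤ t * L / k + 1 + n * Real.exp (-L) := by
  rcases S.eq_empty_or_nonempty with hS | ⟨s0, hs0⟩
  · refine ⟨∅, by simp [hS], ?_⟩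
    simp only [Finset.card_empty, Nat.cast_zero]
    positivity
  have hk0 : (0:ℝ) < k := by exact_mod_cast hk
  have hkκ : k ≤ Fintype.card κ := (hT s0 hs0).trans (Finset.card_le_univ _)
  have hkt : (k:ℝ) ≤ t := by exact_mod_cast hkκ.trans ht
  have ht0 : (0:ℝ) < t := by linarith
  have hκne : Nonempty κ := Fintype.card_pos_iff.mp (by omega)
  have hq0 : 0 ≤ 1 - (k:ℝ) / t := by
    rw [sub_nonneg, div_le_one ht0]; exact hkt
  have greedy : ∀ j : ℕ, ∃ M : Finset κ, M.card ≤ j ∧
      ((S.filter (fun s => ¬ (T s ∩ M).Nonempty)).card : ℝ) ≤ n * (1 - k / t) ^ j := by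
    intro j
    induction j with
    | zero =>
      refine ⟨∅, by simp, ?_⟩
      simp only [pow_zero, mul_one]
      have h1 : (S.filter (fun s => ¬ (T s ∩ (∅ : Finset κ)).Nonempty)).card ≤ n := by
        refine (Finset.card_le_univ _).trans ?_
        simp
      exact_mod_cast h1
    | succ j ih =>
      obtain ⟨M, hM1, hM2⟩ := ih
      set B := S.filter (fun s => ¬ (T s ∩ M).Nonempty) with hB
      have hdc : ∑ u : κ, (B.filter (fun s => u ∈ T s)).card = ∑ s ∈ B, (T s).card := by
        simp only [Finset.card_filter]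
        rw [Finset.sum_comm]
        refine Finset.sum_congr rfl fun s _ => ?_
        rw [← Finset.sum_filter]
        simp
      have hge : B.card * k ≤ ∑ u : κ, (B.filter (fun s => u ∈ T s)).card := by
        rw [hdc, ← smul_eq_mul]
        exact Finset.card_nsmul_le_sum _ _ _ (fun s hs => hT s (Finset.mem_filter.mp hs).1)
      obtain ⟨u, hu⟩ : ∃ u : κ, (B.card * k : ℝ) ≤ t * (B.filter (fun s => u ∈ T s)).card := by
        by_contra hcon
        push Not at hcon
        have h1 : ∑ u : κ, (t:ℝ) * ((B.filter (fun s => u ∈ T s)).card : ℝ)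
            < ∑ u : κ, (B.card * k : ℝ) := by
          apply Finset.sum_lt_sum_of_nonempty
          · exact Finset.univ_nonempty
          · intro u _; exact hcon u
        rw [← Finset.mul_sum, Finset.sum_const, Finset.card_univ, nsmul_eq_mul] at h1
        have h3 : (B.card * k : ℝ) ≤ ∑ u : κ, ((B.filter (fun s => u ∈ T s)).card : ℝ) := by
          exact_mod_cast hge
        have h4 : (Fintype.card κ : ℝ) ≤ t := by exact_mod_cast ht
        have h5 : (0:ℝ) ≤ B.card * k := by positivity
        have h6 : (Fintype.card κ : ℝ) * (B.card * k) ≤ t * (B.card * k) :=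
          mul_le_mul_of_nonneg_right h4 h5
        have h7 : (t:ℝ) * (B.card * k) ≤ t * ∑ u : κ, ((B.filter (fun s => u ∈ T s)).card : ℝ) :=
          mul_le_mul_of_nonneg_left h3 ht0.le
        linarith
      refine ⟨insert u M, (Finset.card_insert_le _ _).trans (by omega), ?_⟩
      have hsub : (S.filter (fun s => ¬ (T s ∩ insert u M).Nonempty))
          ⊆ B \ B.filter (fun s => u ∈ T s) := by
        intro s hs
        simp only [Finset.mem_filter, Finset.mem_sdiff, hB,
          Finset.not_nonempty_iff_eq_empty] at hs ⊢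
        have h1 : T s ∩ M = ∅ := by
          apply Finset.eq_empty_of_forall_notMem
          intro w hw
          have : w ∈ T s ∩ insert u M := by
            rw [Finset.mem_inter] at hw ⊢
            exact ⟨hw.1, Finset.mem_insert_of_mem hw.2⟩
          rw [hs.2] at this
          exact absurd this (Finset.notMem_empty w)
        refine ⟨⟨hs.1, h1⟩, ?_⟩
        rintro ⟨_, hu2⟩
        have : u ∈ T s ∩ insert u M := Finset.mem_inter.mpr ⟨hu2, Finset.mem_insert_self _ _⟩
        rw [hs.2] at this
        exact absurd this (Finset.notMem_empty u)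
      have hcard := Finset.card_le_card hsub
      rw [Finset.card_sdiff_of_subset (Finset.filter_subset _ _)] at hcard
      have hle : (B.filter (fun s => u ∈ T s)).card ≤ B.card := Finset.card_filter_le _ _
      have hcard' : ((S.filter (fun s => ¬ (T s ∩ insert u M).Nonempty)).card : ℝ)
          ≤ B.card - (B.filter (fun s => u ∈ T s)).card := by
        have : ((B.card - (B.filter (fun s => u ∈ T s)).card : ℕ) : ℝ)
            = (B.card : ℝ) - (B.filter (fun s => u ∈ T s)).card := Nat.cast_sub hle
        rw [← this]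
        exact_mod_cast hcard
      have hu' : (B.card * k : ℝ) / t ≤ (B.filter (fun s => u ∈ T s)).card := by
        rw [div_le_iff₀ ht0]; linarith
      calc ((S.filter (fun s => ¬ (T s ∩ insert u M).Nonempty)).card : ℝ)
          ≤ B.card - (B.filter (fun s => u ∈ T s)).card := hcard'
        _ ≤ B.card - (B.card * k : ℝ) / t := by linarith
        _ = B.card * (1 - k / t) := by ring
        _ ≤ (n * (1 - k / t) ^ j) * (1 - k / t) := by gcongr
        _ = n * (1 - k / t) ^ (j + 1) := by ring
  set j := ⌈(t:ℝ) * L / k⌉₊ with hj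
  obtain ⟨M, hM1, hM2⟩ := greedy j
  have hj1 : (t:ℝ) * L / k ≤ j := Nat.le_ceil _
  have hj2 : (j:ℝ) < (t:ℝ) * L / k + 1 := Nat.ceil_lt_add_one (by positivity)
  have hres : (n:ℝ) * (1 - k / t) ^ j ≤ n * Real.exp (-L) := by
    have h1 : 1 - (k:ℝ) / t ≤ Real.exp (-(k / t)) := by
      have := Real.add_one_le_exp (-((k:ℝ) / t))
      linarith
    have h2 : (1 - (k:ℝ) / t) ^ j ≤ Real.exp (-L) := by
      calc (1 - (k:ℝ) / t) ^ j ≤ (Real.exp (-(k / t))) ^ j := pow_le_pow_left₀ hq0 h1 j
        _ = Real.exp (-(j * (k / t))) := by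
            rw [← Real.exp_nat_mul]; congr 1; ring
        _ ≤ Real.exp (-L) := by
            apply Real.exp_le_exp.mpr
            apply neg_le_neg
            have : L = (t * L / k) * (k / t) := by field_simp
            rw [this]
            gcongr
    gcongr
  have hch : ∀ s : Fin n, ∃ u, s ∈ S → u ∈ T s := by
    intro s
    by_cases hs : s ∈ S
    · obtain ⟨u, hu⟩ := Finset.card_pos.mp (lt_of_lt_of_le (by omega) (hT s hs))
      exact ⟨u, fun _ => hu⟩
    · exact ⟨hκne.some, fun h => absurd h hs⟩
  choose c hc using hch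
  refine ⟨M ∪ (S.filter (fun s => ¬ (T s ∩ M).Nonempty)).image c, ?_, ?_⟩
  · intro s hs
    by_cases h : (T s ∩ M).Nonempty
    · obtain ⟨w, hw⟩ := h
      rw [Finset.mem_inter] at hw
      exact ⟨w, hw.1, Finset.mem_union_left _ hw.2⟩
    · exact ⟨c s, hc s hs, Finset.mem_union_right _
        (Finset.mem_image_of_mem c (Finset.mem_filter.mpr ⟨hs, h⟩))⟩
  · have h1 : ((M ∪ (S.filter (fun s => ¬ (T s ∩ M).Nonempty)).image c).card : ℝ)
        ≤ M.card + (S.filter (fun s => ¬ (T s ∩ M).Nonempty)).card := by
      have := (Finset.card_union_le M ((S.filter (fun s => ¬ (T s ∩ M).Nonempty)).image c))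
      have h2 := Finset.card_image_le (s := S.filter (fun s => ¬ (T s ∩ M).Nonempty)) (f := c)
      exact_mod_cast this.trans (by omega)
    have h3 : (M.card : ℝ) ≤ j := by exact_mod_cast hM1
    linarith

end Helper67_MA2
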