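import Pool.Agent.Helper67_MA2.EngineB

set_option autoImplicit false

namespace Helper67_MA2

open Finset Classical Filter Helper42_MA

/-- Length of the public blocks. -/
def blockLen (n : ℕ) : ℕ := n / Nat.clog 2 n ^ 10 + 1

/-- **Block engine, final form**: `R` runs of `D + 1` lookups, each run inside one block. -/
theorem engineB_final : ∃ N0 : ℕ, ∀ n : ℕ, N0 ≤ n → ∀ (c R D : ℕ),
    c ≤ 3 * Nat.clog 2 n → D + 1 ≤ Nat.clog 2 n ^ 3 →
    85 * (Nat.clog 2 (Nat.clog 2 n) * R) ≤ Nat.clog 2 n →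
    ∀ (W : Type) [Fintype W] [Nonempty W]
    (cA cB : W → SimpleGraph (Fin n) → Prop)
    (α : W → SimpleGraph (Fin n) → Fin n → Fin c → Bool)
    (Ψ : W → SimpleGraph (Fin n) → (Fin R → Fin (D + 1) → Fin n) →
      (Fin R → Fin (D + 1) → Fin c → Bool) → Prop)
    (YES NO : SimpleGraph (Fin n) → SimpleGraph (Fin n) → Prop)
    (_ : ∀ x y, YES x y → ∃ w, cA w x ∧ cB w y ∧
      ∀ v, SameBlock (blockLen n) v → ¬ Ψ w y v (fun k i => α w x (v k i)))
    (_ : ∀ x y, NO x y → ∀ w, cA w x → cB w y →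
      ∃ v, SameBlock (blockLen n) v ∧ Ψ w y v (fun k i => α w x (v k i))),
    HasMA n (2 * Real.log (Fintype.card W) + 1 + n / Nat.clog 2 n) YES NO := by
  have E1 := eventually_poly_mul_le 8 7
  have E2 := eventually_poly_mul_le 64 9
  rw [eventually_atTop] at E1 E2
  obtain ⟨l1, hl1⟩ := E1
  obtain ⟨l2, hl2⟩ := E2
  refine ⟨2 ^ (l1 + l2 + 100) + 1, fun n hn c R D hc hD hR W _ _ cA cB α Ψ YES NO hyes hno => ?_⟩
  set l := Nat.clog 2 n with hl
  set lam := Nat.clog 2 l with hlam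
  have hn1 : 1 < n := by
    have : 1 ≤ 2 ^ (l1 + l2 + 100) := Nat.one_le_two_pow
    omega
  have hll : l1 + l2 + 100 < l := (Nat.lt_clog_iff_pow_lt (by norm_num)).mpr (by omega)
  have hnl : n ≤ 2 ^ l := Nat.le_pow_clog (by norm_num) n
  have hln : 2 ^ (l - 1) < n := Nat.pow_pred_clog_lt_self (by norm_num) hn1
  have hlam2 : l ≤ 2 ^ lam := Nat.le_pow_clog (by norm_num) l
  have hlam1 : 1 ≤ lam := Nat.clog_pos (by norm_num) (by omega)
  have hlaml : lam ≤ l := Nat.clog_le_of_le_pow (Nat.lt_two_pow_self).le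
  have E1 := hl1 l (by omega)
  have E2 := hl2 l (by omega)
  -- parameters
  have hRl : 85 * R ≤ l := by
    calc 85 * R ≤ 85 * (lam * R) := by nlinarith
      _ ≤ l := hR
  obtain ⟨q, hqp, hq1, hq2⟩ := Nat.exists_prime_lt_and_le_two_mul
    (2 ^ (l * (D + 1) * R + 20 * lam)) (by positivity)
  have : Fact q.Prime := ⟨hqp⟩
  set t := l ^ 10 with ht
  set s := n / t + 1 with hs
  have hsb : s = blockLen n := rfl
  have hl0 : 0 < l := by omega
  have htpos : 0 < t := by rw [ht]; exact pow_pos hl0 10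
  have hspos : 0 < s := Nat.succ_pos _
  have hts : n ≤ t * s := by
    rw [hs, mul_add, mul_one]
    have := Nat.div_add_mod n t
    have := Nat.mod_lt n htpos
    omega
  have hpowlam : ∀ k : ℕ, l ^ k ≤ 2 ^ (k * lam) := by
    intro k
    calc l ^ k ≤ (2 ^ lam) ^ k := Nat.pow_le_pow_left hlam2 k
      _ = 2 ^ (k * lam) := by rw [← pow_mul, mul_comm]
  have hDc : t * ((D + 1) * c + 1) ≤ l ^ 15 := by
    calc t * ((D + 1) * c + 1) ≤ l ^ 10 * (l ^ 3 * (3 * l) + l ^ 4) := by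
          rw [ht]
          apply Nat.mul_le_mul_left
          have h1 : (D + 1) * c ≤ l ^ 3 * (3 * l) := Nat.mul_le_mul hD hc
          have h2 : 1 ≤ l ^ 4 := Nat.one_le_pow _ _ hl0
          omega
      _ = 4 * l ^ 14 := by ring
      _ ≤ l * l ^ 14 := Nat.mul_le_mul_right _ (by omega)
      _ = l ^ 15 := by ring
  have hqt : t ≤ q := by
    have h1 : l ^ 10 ≤ 2 ^ (l * (D + 1) * R + 20 * lam) :=
      (hpowlam 10).trans (Nat.pow_le_pow_right (by norm_num) (by omega))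
    omega
  have hqn : (n ^ (D + 1)) ^ R < q := by
    refine lt_of_le_of_lt ?_ hq1
    calc (n ^ (D + 1)) ^ R ≤ ((2 ^ l) ^ (D + 1)) ^ R :=
          Nat.pow_le_pow_left (Nat.pow_le_pow_left hnl _) _
      _ = 2 ^ (l * (D + 1) * R) := by rw [← pow_mul, ← pow_mul, ← mul_assoc]
      _ ≤ _ := Nat.pow_le_pow_right (by norm_num) (by omega)
  have hqD : 3 * (R * (t * ((D + 1) * c + 1))) ≤ q := by
    have h1 : 3 * (R * (t * ((D + 1) * c + 1))) ≤ l ^ 17 := by
      calc 3 * (R * (t * ((D + 1) * c + 1))) ≤ l * (l * l ^ 15) := by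
            apply Nat.mul_le_mul (by omega)
            apply Nat.mul_le_mul (by omega) hDc
        _ = l ^ 17 := by ring
    have h2 : l ^ 17 ≤ 2 ^ (l * (D + 1) * R + 20 * lam) :=
      (hpowlam 17).trans (Nat.pow_le_pow_right (by norm_num) (by omega))
    omega
  set b := l * (D + 1) * R + 20 * lam + 1 with hb
  have hqb : q ≤ 2 ^ b := by
    rw [hb, pow_succ]; omega
  have hbl : b ≤ l ^ 5 + l ^ 2 := by
    have h1 : l * (D + 1) * R ≤ l * l ^ 3 * l := by
      apply Nat.mul_le_mul _ (by omega)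
      exact Nat.mul_le_mul_left _ hD
    have h2 : l * l ^ 3 * l = l ^ 5 := by ring
    have h3 : 20 * lam + 1 ≤ l ^ 2 := by nlinarith
    omega
  have hbl2 : b ≤ 2 * l ^ 5 := by
    have : l ^ 2 ≤ l ^ 5 := Nat.pow_le_pow_right hl0 (by norm_num)
    omega
  have main := engineB (p0 := Nat.clog 2 (Fintype.card W)) hspos htpos hts hqt hqn hqD cA cB α Ψ
    hyes hno (Nat.le_pow_clog (by norm_num) _) hqb
  refine main.mono ?_ (fun _ _ h => h) (fun _ _ h => h)
  -- numerical estimate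
  have h8 : 15 * (lam * R) ≤ l / 5 := by omega
  have hDd : (t * ((D + 1) * c + 1)) ^ R ≤ 2 ^ (l / 5) := by
    calc (t * ((D + 1) * c + 1)) ^ R ≤ (l ^ 15) ^ R := Nat.pow_le_pow_left hDc R
      _ = l ^ (15 * R) := by rw [← pow_mul]
      _ ≤ 2 ^ (15 * R * lam) := hpowlam _
      _ = 2 ^ (15 * (lam * R)) := by ring_nf
      _ ≤ 2 ^ (l / 5) := Nat.pow_le_pow_right (by norm_num) h8
  have hlpos : (0:ℝ) < l := by exact_mod_cast hl0
  have hl100 : (100:ℝ) ≤ l := by
    have : 100 ≤ l := by omega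
    exact_mod_cast this
  -- first term
  have T1 : ((b * (t * ((D + 1) * c + 1)) ^ R : ℕ) : ℝ) ≤ n / (8 * l) := by
    rw [le_div_iff₀ (by positivity)]
    have h1 : b * (t * ((D + 1) * c + 1)) ^ R * (8 * l) ≤ n := by
      calc b * (t * ((D + 1) * c + 1)) ^ R * (8 * l) ≤ 2 * l ^ 5 * 2 ^ (l / 5) * (8 * l) := by
            gcongr
        _ = 16 * l ^ 6 * 2 ^ (l / 5) := by ring
        _ ≤ 8 * l ^ 7 * 2 ^ (l / 5) := by
            apply Nat.mul_le_mul_right
            calc 16 * l ^ 6 = 8 * (2 * l ^ 6) := by ring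
              _ ≤ 8 * (l * l ^ 6) := by
                  apply Nat.mul_le_mul_left
                  exact Nat.mul_le_mul_right _ (by omega)
              _ = 8 * l ^ 7 := by ring
        _ ≤ 2 ^ (l - 1) := E1
        _ ≤ n := hln.le
    exact_mod_cast h1
  have T2 : ((b * (R * s * c) + 1 : ℕ) : ℝ) ≤ 6 * l ^ 7 * (n / l ^ 10 + 1) + 1 := by
    have h1 : (b * (R * s * c) + 1 : ℕ) ≤ 6 * l ^ 7 * s + 1 := by
      have : b * (R * s * c) ≤ 2 * l ^ 5 * (l * s * (3 * l)) := by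
        apply Nat.mul_le_mul hbl2
        apply Nat.mul_le_mul _ hc
        apply Nat.mul_le_mul_right
        omega
      calc b * (R * s * c) + 1 ≤ 2 * l ^ 5 * (l * s * (3 * l)) + 1 := by omega
        _ = 6 * l ^ 7 * s + 1 := by ring
    have h2 : (s : ℝ) ≤ n / l ^ 10 + 1 := by
      rw [hs]
      push_cast
      have h3 : ((n / t : ℕ) : ℝ) ≤ (n : ℝ) / (t : ℝ) := Nat.cast_div_le
      rw [ht] at h3
      push_cast at h3
      rw [ht]
      linarith
    calc ((b * (R * s * c) + 1 : ℕ) : ℝ) ≤ ((6 * l ^ 7 * s + 1 : ℕ) : ℝ) := by exact_mod_cast h1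
      _ = 6 * l ^ 7 * s + 1 := by push_cast; ring
      _ ≤ _ := by gcongr
  have T3 : (6 * (l:ℝ) ^ 7 * (n / l ^ 10 + 1) + 1) ≤ n / (2 * l) := by
    have h1 : 6 * (l:ℝ) ^ 7 * (n / l ^ 10) = 6 * n / l ^ 3 := by
      field_simp
    have h2 : 6 * (n:ℝ) / l ^ 3 ≤ n / (4 * l) := by
      rw [div_le_div_iff₀ (by positivity) (by positivity)]
      have h3 : (24:ℝ) * l ≤ l ^ 3 := by
        have h4 : (24:ℝ) ≤ l * l := by nlinarith
        calc (24:ℝ) * l ≤ (l * l) * l := mul_le_mul_of_nonneg_right h4 hlpos.le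
          _ = l ^ 3 := by ring
      have : (0:ℝ) ≤ n := by positivity
      nlinarith
    have h3 : (6 * (l:ℝ) ^ 7 + 1) ≤ n / (4 * l) := by
      rw [le_div_iff₀ (by positivity)]
      have h4 : (6 * l ^ 7 + 1) * (4 * l) ≤ n := by
        calc (6 * l ^ 7 + 1) * (4 * l) ≤ (6 * l ^ 7 + 10 * l ^ 7) * (4 * l) := by
              apply Nat.mul_le_mul_right
              have : 1 ≤ l ^ 7 := Nat.one_le_pow _ _ (by omega)
              omega
          _ = 64 * l ^ 8 * 1 := by ring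
          _ ≤ 64 * l ^ 9 * 2 ^ (l / 5) := by
              apply Nat.mul_le_mul _ Nat.one_le_two_pow
              apply Nat.mul_le_mul_left
              exact Nat.pow_le_pow_right hl0 (by norm_num)
          _ ≤ 2 ^ (l - 1) := E2
          _ ≤ n := hln.le
      exact_mod_cast h4
    have h5 : (n:ℝ) / (4 * l) + n / (4 * l) = n / (2 * l) := by
      field_simp; ring
    have h6 : (6 * (l:ℝ) ^ 7 * ((n:ℝ) / (l:ℝ) ^ 10 + 1) + 1)
        = 6 * (l:ℝ) ^ 7 * ((n:ℝ) / (l:ℝ) ^ 10) + (6 * (l:ℝ) ^ 7 + 1) := by ring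
    rw [h6, h1]
    linarith
  have T4 : (n:ℝ) / (8 * l) + n / (2 * l) ≤ n / l := by
    have : (n:ℝ) / (8 * l) + n / (2 * l) = (5 / 8) * (n / l) := by
      field_simp; ring
    rw [this]
    have : (0:ℝ) ≤ n / l := by positivity
    linarith
  have hcl := clog_le_log (Fintype.card W) Fintype.card_pos
  have T5 : ((Nat.clog 2 (Fintype.card W) + b * (t * ((D + 1) * c + 1)) ^ R
      + (b * (R * s * c) + 1) : ℕ) : ℝ)
      = Nat.clog 2 (Fintype.card W) + ((b * (t * ((D + 1) * c + 1)) ^ R : ℕ) : ℝ)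
        + ((b * (R * s * c) + 1 : ℕ) : ℝ) := by
    push_cast; ring
  rw [T5]
  linarith

end Helper67_MA2
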