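import Pool.Agent.Helper67_MA2.TwoLevel
import Pool.Agent.Helper67_MA2.Greedy
import Pool.Agent.Helper67_MA2.ParamB

set_option autoImplicit false

namespace Helper67_MA2

open Finset Classical Helper42_MA Filter

section
variable {n : ℕ}

/-- The set discovered from `s` by `m` runs. -/
noncomputable def TT (bl : Fin n → ℕ) (x y : SimpleGraph (Fin n)) (D m : ℕ) (s : Fin n) :
    Finset (Fin n) :=
  (stp (ptr (restr bl x)) (ptr x) (restr bl y) y s D m).2

/-- The vertices looked up from `s` in `m` runs. -/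
noncomputable def UU (bl : Fin n → ℕ) (x y : SimpleGraph (Fin n)) (D m : ℕ) (s : Fin n) :
    Finset (Fin n) :=
  (stp (ptr (restr bl x)) (ptr x) (restr bl y) y s D m).1

/-- A hitting set for the sets discovered by the two-level exploration. -/
theorem exists_centresB (x y : SimpleGraph (Fin n)) (bl : Fin n → ℕ) (hG : (x ⊔ y).Connected)
    (D m t : ℕ) (hm : 1 ≤ m)
    (ht : Fintype.card (restr bl x ⊔ restr bl y).ConnectedComponent ≤ t) (L : ℝ) (hL : 0 ≤ L) :
    ∃ M0 : Finset (Fin n), (∀ s, (TT bl x y D m s ∩ M0).Nonempty) ∧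
      (M0.card : ℝ) ≤ (n * L / (D + 1 : ℕ) + 1 + n * Real.exp (-L)) +
        (t * L / m + 1 + n * Real.exp (-L)) + 1 := by
  obtain ⟨r⟩ := hG.nonempty
  set S1 : Finset (Fin n) := univ.filter (fun e =>
    D + 1 ≤ (exT (ptr (restr bl x)) (restr bl y) e (D + 1)).card) with hS1
  obtain ⟨M1, hM1, hM1c⟩ := greedy_hit S1
    (fun e => exT (ptr (restr bl x)) (restr bl y) e (D + 1)) (D + 1) n (by omega) (by simp)
    (fun e he => (Finset.mem_filter.mp he).2) L hL
  set P : Fin n → Finset (restr bl x ⊔ restr bl y).ConnectedComponent → Prop := fun s C =>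
    C.card = m ∧ ∀ v, v ∈ TT bl x y D m s ↔ (restr bl x ⊔ restr bl y).connectedComponentMk v ∈ C
    with hP
  set S2 : Finset (Fin n) := univ.filter (fun s => ∃ C, P s C) with hS2
  have hch : ∀ s, ∃ C : Finset (restr bl x ⊔ restr bl y).ConnectedComponent, s ∈ S2 → P s C := by
    intro s
    by_cases hs : s ∈ S2
    · obtain ⟨C, hC⟩ := (Finset.mem_filter.mp hs).2
      exact ⟨C, fun _ => hC⟩
    · exact ⟨∅, fun h => absurd h hs⟩
  choose C hC using hch
  obtain ⟨M2, hM2, hM2c⟩ := greedy_hit S2 C m t hm ht (fun s hs => (hC s hs).1.ge) L hL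
  set M2v : Finset (Fin n) := M2.image (fun c => Quot.out c) with hM2v
  refine ⟨(M1 ∪ M2v) ∪ {r}, fun s => ?_, ?_⟩
  · rcases stp_growth x y bl hG s D m with ⟨e, h1, h2⟩ | h | ⟨h1, C', hC', hmem⟩
    · obtain ⟨v, hv1, hv2⟩ := hM1 e (Finset.mem_filter.mpr ⟨Finset.mem_univ _, h1⟩)
      exact ⟨v, Finset.mem_inter.mpr ⟨h2 hv1,
        Finset.mem_union_left _ (Finset.mem_union_left _ hv2)⟩⟩
    · refine ⟨r, Finset.mem_inter.mpr ⟨?_, Finset.mem_union_right _ (Finset.mem_singleton_self r)⟩⟩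
      unfold TT
      rw [h]; exact Finset.mem_univ r
    · have hs : s ∈ S2 := Finset.mem_filter.mpr ⟨Finset.mem_univ _, C', hC', hmem⟩
      obtain ⟨c, hc1, hc2⟩ := hM2 s hs
      refine ⟨Quot.out c, Finset.mem_inter.mpr ⟨?_, ?_⟩⟩
      · rw [(hC s hs).2]
        have : (restr bl x ⊔ restr bl y).connectedComponentMk (Quot.out c) = c := Quot.out_eq c
        rw [this]; exact hc1
      · exact Finset.mem_union_left _ (Finset.mem_union_right _
          (Finset.mem_image_of_mem _ hc2))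
  · have h1 : (((M1 ∪ M2v) ∪ {r}).card : ℝ) ≤ M1.card + M2.card + 1 := by
      have e1 := Finset.card_union_le (M1 ∪ M2v) {r}
      have e2 := Finset.card_union_le M1 M2v
      have e3 : M2v.card ≤ M2.card := Finset.card_image_le
      have e4 : ({r} : Finset (Fin n)).card = 1 := Finset.card_singleton r
      have : ((M1 ∪ M2v) ∪ {r}).card ≤ M1.card + M2.card + 1 := by omega
      exact_mod_cast this
    linarith

/-- The conditions on a certificate at a pair of starting vertices. -/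
def LocalOK {Lab : Type} (R : Lab → Lab → Prop) (y : SimpleGraph (Fin n)) (w : Fin n → Mark Lab)
    (m0 s s' : Fin n) (T T' : Finset (Fin n)) (hx : Prop) : Prop :=
  (∃ m ∈ T, (w m).1 ≠ none) ∧
  (∀ l, (w s).2.2 = some l → (w (ctr w T s)).1 = some l) ∧
  (∀ l, (w s).2.1 = some l → (w (ctr w T s)).1 = some l) ∧
  ((w s).2.1 ≠ none → ctr w T s ≠ m0) ∧
  ((w s).2.1 ≠ none → hx ∨ hasEntry R y w s) ∧
  ((w s).2.1 ≠ none → (w s').2.1 ≠ none → s ≠ s' → ctr w T s ≠ ctr w T' s')

theorem good_of_local {Lab : Type} (R : Lab → Lab → Prop) (x y : SimpleGraph (Fin n))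
    (T : Fin n → Finset (Fin n)) (w : Fin n → Mark Lab) (m0 : Fin n)
    (hcount : (univ.filter (fun s => (w s).2.1 ≠ none)).card + 1
      = (univ.filter (fun s => (w s).1 ≠ none)).card) (hroot : (w m0).1 ≠ none)
    (h : ∀ s s', LocalOK R y w m0 s s' (T s) (T s') (hasEntry R x w s)) :
    Good R x y T w m0 :=
  ⟨fun s => (h s s).1, fun s l hl => (h s s).2.1 l hl, fun s l hl => (h s s).2.2.1 l hl,
    fun s hs => (h s s).2.2.2.1 hs, fun s hs => (h s s).2.2.2.2.1 hs,
    fun s s' hs hs' hne => (h s s').2.2.2.2.2 hs hs' hne, hcount, hroot⟩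

theorem local_of_good {Lab : Type} (R : Lab → Lab → Prop) (x y : SimpleGraph (Fin n))
    (T : Fin n → Finset (Fin n)) (w : Fin n → Mark Lab) (m0 : Fin n)
    (h : Good R x y T w m0) (s s' : Fin n) :
    LocalOK R y w m0 s s' (T s) (T s') (hasEntry R x w s) :=
  ⟨h.centre s, fun l hl => h.entry s l hl, fun l hl => h.exit1 s l hl, fun hs => h.exit2 s hs,
    fun hs => h.exit3 s hs, fun hs hs' hne => h.inj s s' hs hs' hne⟩

/-- Locality of the whole exploration. -/
theorem UU_congr (bl : Fin n → ℕ) (x x2 y : SimpleGraph (Fin n)) (D m : ℕ) (s : Fin n)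
    (h : ∀ u ∈ UU bl x y D m s, ptr (restr bl x2) u = ptr (restr bl x) u ∧ ptr x2 u = ptr x u) :
    TT bl x2 y D m s = TT bl x y D m s := by
  unfold TT
  rw [stp_congr (ptr (restr bl x)) (ptr x) (ptr (restr bl x2)) (ptr x2) (restr bl y) y s D m h]

/-- The blocks given by a permutation of the vertices. -/
def blk (σ : Equiv.Perm (Fin n)) (u : Fin n) : ℕ := (σ u : ℕ) / blockLen n

/-- The tuple of lookups of the exploration from `s`, relabelled by `σ`. -/
noncomputable def lookups (σ : Equiv.Perm (Fin n)) (x y : SimpleGraph (Fin n)) (D : ℕ) (s : Fin n)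
    (k : ℕ) (i : Fin (D + 1)) : Fin n :=
  σ (exTuple (D + 1) (ptr (restr (blk σ) x)) (restr (blk σ) y)
    (seed (ptr (restr (blk σ) x)) (ptr x) (restr (blk σ) y) y s D k) i)

theorem lookups_block (σ : Equiv.Perm (Fin n)) (x y : SimpleGraph (Fin n)) (D : ℕ) (s : Fin n)
    (k : ℕ) (i : Fin (D + 1)) :
    (lookups σ x y D s k i : ℕ) / blockLen n = (lookups σ x y D s k 0 : ℕ) / blockLen n := by
  have h1 := exTuple_block x y (blk σ)
    (seed (ptr (restr (blk σ) x)) (ptr x) (restr (blk σ) y) y s D k) D i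
  have h2 := exTuple_block x y (blk σ)
    (seed (ptr (restr (blk σ) x)) (ptr x) (restr (blk σ) y) y s D k) D 0
  exact h1.trans h2.symm

theorem lookups_cover (σ : Equiv.Perm (Fin n)) (x y : SimpleGraph (Fin n)) (D m : ℕ) (s : Fin n)
    (u : Fin n) (hu : u ∈ UU (blk σ) x y D m s) :
    ∃ k < m, ∃ i : Fin (D + 1), lookups σ x y D s k i = σ u := by
  obtain ⟨k, hk, h⟩ := mem_stp1 _ _ _ _ _ _ _ u hu
  rw [mem_exU_iff] at h
  obtain ⟨i, hi⟩ := h
  exact ⟨k, hk, i, by unfold lookups; rw [hi]⟩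

theorem exists_code3 {n l : ℕ} (h : n ≤ 2 ^ l) :
    ∃ code : Fin n × Fin n × Bool → (Fin (2 * l + 1) → Bool), Function.Injective code := by
  have : Nonempty (Fin n × Fin n × Bool ↪ (Fin (2 * l + 1) → Bool)) := by
    apply Function.Embedding.nonempty_of_card_le
    simp only [Fintype.card_prod, Fintype.card_fin, Fintype.card_bool, Fintype.card_fun]
    rw [pow_succ, two_mul, pow_add]
    calc n * (n * 2) = n * n * 2 := by ring
      _ ≤ 2 ^ l * 2 ^ l * 2 := by gcongr
  obtain ⟨e⟩ := this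
  exact ⟨e, e.injective⟩

/-- YES instances of the block protocol. -/
def YesB (n M : ℕ) (σ : Fin M → Equiv.Perm (Fin n)) (t Q : ℕ) (x y : SimpleGraph (Fin n)) : Prop :=
  (x ⊔ y).Connected ∧ (∀ u v, (x ⊔ y).dist u v ≤ Q) ∧
    ∃ i, Nat.card (restr (blk (σ i)) x ⊔ restr (blk (σ i)) y).ConnectedComponent ≤ t

/-- The bad event. -/
def badB {n m D c Q : ℕ} (code : Fin n × Fin n × Bool → (Fin c → Bool)) (σ : Equiv.Perm (Fin n))
    (w : Fin n → Mark (Fin (Q + 1))) (m0 : Fin n) (y : SimpleGraph (Fin n))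
    (v : Fin (m + m) → Fin (D + 1) → Fin n) (β : Fin (m + m) → Fin (D + 1) → Fin c → Bool) : Prop :=
  ∃ (xx : SimpleGraph (Fin n)) (s s' : Fin n),
    (∀ k i, code (ptr (restr (blk σ) xx) (σ.symm (v k i)), ptr xx (σ.symm (v k i)),
      decide (hasEntry (fun a b : Fin (Q + 1) => a < b) xx w (σ.symm (v k i)))) = β k i) ∧
    (∀ u ∈ UU (blk σ) xx y D m s, ∃ k i, v k i = σ u) ∧
    (∀ u ∈ UU (blk σ) xx y D m s', ∃ k i, v k i = σ u) ∧
    ¬ LocalOK (fun a b : Fin (Q + 1) => a < b) y w m0 s s' (TT (blk σ) xx y D m s)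
      (TT (blk σ) xx y D m s') (hasEntry (fun a b : Fin (Q + 1) => a < b) xx w s)

theorem not_bad_of_good {n m D c Q : ℕ} (hm : 1 ≤ m)
    (code : Fin n × Fin n × Bool → (Fin c → Bool))
    (hcode : Function.Injective code) (σ : Equiv.Perm (Fin n)) (w : Fin n → Mark (Fin (Q + 1)))
    (m0 : Fin n) (x y : SimpleGraph (Fin n))
    (hgood : Good (fun a b : Fin (Q + 1) => a < b) x y (TT (blk σ) x y D m) w m0)
    (v : Fin (m + m) → Fin (D + 1) → Fin n) :
    ¬ badB code σ w m0 y v (fun k i => code (ptr (restr (blk σ) x) (σ.symm (v k i)),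
      ptr x (σ.symm (v k i)),
      decide (hasEntry (fun a b : Fin (Q + 1) => a < b) x w (σ.symm (v k i))))) := by
  rintro ⟨xx, s, s', h1, h2, h3, h4⟩
  have key : ∀ z, (∀ u ∈ UU (blk σ) xx y D m z, ∃ k i, v k i = σ u) →
      ∀ u ∈ UU (blk σ) xx y D m z, (ptr (restr (blk σ) x) u = ptr (restr (blk σ) xx) u ∧
        ptr x u = ptr xx u) ∧ (hasEntry (fun a b : Fin (Q + 1) => a < b) x w u ↔
          hasEntry (fun a b : Fin (Q + 1) => a < b) xx w u) := by
    intro z hz u hu
    obtain ⟨k, i, hki⟩ := hz u hu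
    have h5 := hcode (h1 k i)
    rw [hki, Equiv.symm_apply_apply] at h5
    simp only [Prod.mk.injEq] at h5
    exact ⟨⟨h5.1.symm, h5.2.1.symm⟩, by simpa using h5.2.2.symm⟩
  have e1 : TT (blk σ) x y D m s = TT (blk σ) xx y D m s :=
    UU_congr _ _ _ _ _ _ _ (fun u hu => (key s h2 u hu).1)
  have e2 : TT (blk σ) x y D m s' = TT (blk σ) xx y D m s' :=
    UU_congr _ _ _ _ _ _ _ (fun u hu => (key s' h3 u hu).1)
  have e3 : hasEntry (fun a b : Fin (Q + 1) => a < b) x w s ↔
      hasEntry (fun a b : Fin (Q + 1) => a < b) xx w s := by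
    apply (key s h2 s _).2
    obtain ⟨m', rfl⟩ : ∃ m', m = m' + 1 := ⟨m - 1, by omega⟩
    exact start_mem_stp1 _ _ _ _ _ _ _
  apply h4
  have h6 := local_of_good _ x y _ w m0 hgood s s'
  rw [e1, e2] at h6
  rw [propext e3] at h6
  exact h6

theorem exists_bad {n m D c Q : ℕ} (code : Fin n × Fin n × Bool → (Fin c → Bool))
    (σ : Equiv.Perm (Fin n)) (w : Fin n → Mark (Fin (Q + 1)))
    (m0 : Fin n) (x y : SimpleGraph (Fin n)) (s s' : Fin n)
    (h : ¬ LocalOK (fun a b : Fin (Q + 1) => a < b) y w m0 s s' (TT (blk σ) x y D m s)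
      (TT (blk σ) x y D m s') (hasEntry (fun a b : Fin (Q + 1) => a < b) x w s)) :
    ∃ v : Fin (m + m) → Fin (D + 1) → Fin n, SameBlock (blockLen n) v ∧
      badB code σ w m0 y v (fun k i => code (ptr (restr (blk σ) x) (σ.symm (v k i)),
        ptr x (σ.symm (v k i)),
        decide (hasEntry (fun a b : Fin (Q + 1) => a < b) x w (σ.symm (v k i))))) := by
  refine ⟨Fin.append (fun k : Fin m => lookups σ x y D s k) (fun k : Fin m => lookups σ x y D s' k),
    ?_, x, s, s', fun k i => rfl, ?_, ?_, h⟩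
  · intro k i
    induction k using Fin.addCases with
    | left k => rw [Fin.append_left]; exact lookups_block σ x y D s k i
    | right k => rw [Fin.append_right]; exact lookups_block σ x y D s' k i
  · intro u hu
    obtain ⟨k, hk, i, hi⟩ := lookups_cover σ x y D m s u hu
    exact ⟨Fin.castAdd m ⟨k, hk⟩, i, by rw [Fin.append_left]; exact hi⟩
  · intro u hu
    obtain ⟨k, hk, i, hi⟩ := lookups_cover σ x y D m s' u hu
    exact ⟨Fin.natAdd m ⟨k, hk⟩, i, by rw [Fin.append_right]; exact hi⟩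

theorem connected_of_good {n Q : ℕ} (x y : SimpleGraph (Fin n)) (T : Fin n → Finset (Fin n))
    (w : Fin n → Mark (Fin (Q + 1))) (m0 : Fin n)
    (hT : ∀ s, ∀ m ∈ T s, (x ⊔ y).Reachable s m)
    (hgood : Good (fun a b : Fin (Q + 1) => a < b) x y T w m0) : (x ⊔ y).Connected := by
  obtain ⟨g1, g2⟩ := hgood.sound hT
  have hcen : ∀ k : ℕ, ∀ m (j : Fin (Q + 1)), (w m).1 = some j → (j : ℕ) ≤ k →
      (x ⊔ y).Reachable m m0 := by
    intro k
    induction k with
    | zero =>
      intro m j hj hj0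
      by_cases hm : m = m0
      · rw [hm]
      obtain ⟨m', l', _, _, hlt⟩ := g2 m j hm hj
      rw [Fin.lt_def] at hlt
      omega
    | succ k ih =>
      intro m j hj hj0
      by_cases hm : m = m0
      · rw [hm]
      obtain ⟨m', l', h1, h2, hlt⟩ := g2 m j hm hj
      rw [Fin.lt_def] at hlt
      exact h1.trans (ih m' l' h2 (by omega))
  have hall : ∀ s, (x ⊔ y).Reachable s m0 := by
    intro s
    obtain ⟨m, hm, hsm⟩ := g1 s
    obtain ⟨j, hj⟩ := Option.ne_none_iff_exists'.mp hm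
    exact hsm.trans (hcen j m j hj le_rfl)
  have : Nonempty (Fin n) := ⟨m0⟩
  exact ⟨fun u v => (hall u).trans (hall v).symm⟩

end

end Helper67_MA2
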