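import Pool.Agent.Helper42_MA.Engine
import Pool.Agent.Helper42_MA.Param
import Pool.Agent.Helper42_MA.Count

set_option autoImplicit false

namespace Helper67_MA2

open Finset Classical Polynomial Helper42_MA

section
variable {q : ℕ} [Fact q.Prime] {n R D c t s : ℕ}

/-- All vertices of each run lie in one block (blocks: intervals of length `s`). -/
def SameBlock (s : ℕ) (v : Fin R → Fin (D + 1) → Fin n) : Prop :=
  ∀ k i, (v k i : ℕ) / s = (v k 0 : ℕ) / s

/-- The univariate factor attached to a run and possible table values. -/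
noncomputable def rPoly (q t s : ℕ) [Fact q.Prime] (hs : 0 < s) (α : Fin n → Fin c → Bool)
    (u : Fin (D + 1) → Fin n) (β : Fin (D + 1) → Fin c → Bool) : Polynomial (ZMod q) :=
  lag q t ((u 0 : ℕ) / s) *
    ∏ i : Fin (D + 1), ∏ j : Fin c, chi (β i j) (colPoly q t s α ⟨(u i : ℕ) % s, Nat.mod_lt _ hs⟩ j)

theorem natDegree_rPoly (hqt : t ≤ q) (hts : n ≤ t * s) (hs : 0 < s) (ht : 0 < t)
    (α : Fin n → Fin c → Bool)
    (u : Fin (D + 1) → Fin n) (β : Fin (D + 1) → Fin c → Bool) :
    (rPoly q t s hs α u β).natDegree < t * ((D + 1) * c + 1) := by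
  have hv : (u 0 : ℕ) / s < t := by
    rw [Nat.div_lt_iff_lt_mul hs]; exact (u 0).2.trans_le hts
  have h1 : (rPoly q t s hs α u β).natDegree
      ≤ (t - 1) + ∑ i : Fin (D + 1), ∑ j : Fin c, (t - 1) := by
    unfold rPoly
    refine Polynomial.natDegree_mul_le.trans (add_le_add (natDegree_lag hqt hv) ?_)
    refine (Polynomial.natDegree_prod_le _ _).trans (Finset.sum_le_sum fun i _ => ?_)
    refine (Polynomial.natDegree_prod_le _ _).trans (Finset.sum_le_sum fun j _ => ?_)
    exact natDegree_chi_le (natDegree_colPoly hqt hts hs α _ j)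
  refine h1.trans_lt ?_
  simp only [Finset.sum_const, Finset.card_univ, Fintype.card_fin, smul_eq_mul]
  have : (t - 1) + (D + 1) * (c * (t - 1)) = (t - 1) * ((D + 1) * c + 1) := by ring
  rw [this]
  exact Nat.mul_lt_mul_of_pos_right (by omega) (by omega)

theorem sum_rPoly (hqt : t ≤ q) (hts : n ≤ t * s) (hs : 0 < s)
    (α : Fin n → Fin c → Bool) (u : Fin (D + 1) → Fin n) (β : Fin (D + 1) → Fin c → Bool)
    (hu : ∀ i, (u i : ℕ) / s = (u 0 : ℕ) / s) :
    ∑ a : Fin t, (rPoly q t s hs α u β).eval ((a : ℕ) : ZMod q)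
      = if β = (fun i => α (u i)) then 1 else 0 := by
  have hv : (u 0 : ℕ) / s < t := by
    rw [Nat.div_lt_iff_lt_mul hs]; exact (u 0).2.trans_le hts
  rw [Finset.sum_eq_single (⟨(u 0 : ℕ) / s, hv⟩ : Fin t)]
  · unfold rPoly
    rw [Polynomial.eval_mul, lag_self hqt hv, one_mul, Polynomial.eval_prod]
    have h1 : ∀ i : Fin (D + 1), (∏ j : Fin c, chi (β i j)
        (colPoly q t s α ⟨(u i : ℕ) % s, Nat.mod_lt _ hs⟩ j)).eval (((u 0 : ℕ) / s : ℕ) : ZMod q)
        = if β i = α (u i) then 1 else 0 := by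
      intro i
      rw [Polynomial.eval_prod]
      have h2 : ∀ j : Fin c, (chi (β i j) (colPoly q t s α ⟨(u i : ℕ) % s, Nat.mod_lt _ hs⟩ j)).eval
          (((u 0 : ℕ) / s : ℕ) : ZMod q) = if β i j = α (u i) j then 1 else 0 := by
        intro j
        rw [← chi_bit (q := q), ← eval_colPoly hqt hts hs α (u i) j, hu i]
        unfold chi
        split_ifs <;> simp
      simp only [h2]
      by_cases h : β i = α (u i)
      · simp [h]
      · rw [if_neg h]
        obtain ⟨j, hj⟩ := Function.ne_iff.mp h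
        exact Finset.prod_eq_zero (Finset.mem_univ j) (by rw [if_neg hj])
    simp only [h1]
    by_cases h : β = (fun i => α (u i))
    · simp [h]
    · rw [if_neg h]
      obtain ⟨i, hi⟩ := Function.ne_iff.mp h
      exact Finset.prod_eq_zero (Finset.mem_univ i) (by rw [if_neg hi])
  · intro a _ ha
    unfold rPoly
    rw [Polynomial.eval_mul, lag_ne, zero_mul]
    · intro h; apply ha; apply Fin.ext; exact h.symm
    · exact a.2
  · simp

/-- Index set of the bad tuples together with possible table values. -/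
abbrev Tau (s : ℕ) (Ψ : (Fin R → Fin (D + 1) → Fin n) → (Fin R → Fin (D + 1) → Fin c → Bool) → Prop) :
    Type :=
  {τ : (Fin R → Fin (D + 1) → Fin n) × (Fin R → Fin (D + 1) → Fin c → Bool) //
    SameBlock s τ.1 ∧ Ψ τ.1 τ.2}

/-- Bob's side of the evaluation, computed from Alice's message. -/
noncomputable def bobVal (q t s : ℕ) [Fact q.Prime] (hs : 0 < s)
    (Ψ : (Fin R → Fin (D + 1) → Fin n) → (Fin R → Fin (D + 1) → Fin c → Bool) → Prop)
    (r : Fin R → ZMod q) (msg : Fin R → Fin s → Fin c → ZMod q) : ZMod q :=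
  ∑ τ : Tau s Ψ,
    ∏ k, ((lag q t ((τ.1.1 k 0 : ℕ) / s)).eval (r k) *
      ∏ i : Fin (D + 1), ∏ j : Fin c,
        chi (τ.1.2 k i j) (msg k ⟨(τ.1.1 k i : ℕ) % s, Nat.mod_lt _ hs⟩ j))

/-- The honest table. -/
noncomputable def trueTable (q t s : ℕ) [Fact q.Prime] (hs : 0 < s)
    (Ψ : (Fin R → Fin (D + 1) → Fin n) → (Fin R → Fin (D + 1) → Fin c → Bool) → Prop)
    (α : Fin n → Fin c → Bool) :
    (Fin R → Fin (t * ((D + 1) * c + 1))) → ZMod q :=
  sumTable (fun (τ : Tau s Ψ) k => rPoly q t s hs α (τ.1.1 k) (τ.1.2 k))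

theorem tableEval_trueTable (hqt : t ≤ q) (hts : n ≤ t * s) (hs : 0 < s) (ht : 0 < t)
    (Ψ : (Fin R → Fin (D + 1) → Fin n) → (Fin R → Fin (D + 1) → Fin c → Bool) → Prop)
    (α : Fin n → Fin c → Bool) (r : Fin R → ZMod q) :
    tableEval (trueTable q t s hs Ψ α) r
      = bobVal q t s hs Ψ r (fun k l j => (colPoly q t s α l j).eval (r k)) := by
  unfold trueTable
  rw [tableEval_sumTable _ (fun τ k => natDegree_rPoly hqt hts hs ht α _ _)]
  unfold bobVal
  refine Finset.sum_congr rfl fun τ _ => Finset.prod_congr rfl fun k _ => ?_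
  unfold rPoly
  rw [Polynomial.eval_mul, Polynomial.eval_prod]
  congr 1
  refine Finset.prod_congr rfl fun i _ => ?_
  rw [Polynomial.eval_prod]
  refine Finset.prod_congr rfl fun j _ => ?_
  unfold chi
  split_ifs <;> simp

/-- The grid sum of the honest table counts the bad tuples. -/
theorem gridSum_trueTable (hqt : t ≤ q) (hts : n ≤ t * s) (hs : 0 < s) (ht : 0 < t)
    (Ψ : (Fin R → Fin (D + 1) → Fin n) → (Fin R → Fin (D + 1) → Fin c → Bool) → Prop)
    (α : Fin n → Fin c → Bool) :
    ∑ a : Fin R → Fin t, tableEval (trueTable q t s hs Ψ α) (fun k => ((a k : ℕ) : ZMod q))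
      = ((univ.filter (fun v : Fin R → Fin (D + 1) → Fin n =>
          SameBlock s v ∧ Ψ v (fun k i => α (v k i)))).card : ZMod q) := by
  unfold trueTable
  have h1 : ∀ a : Fin R → Fin t, tableEval (sumTable (D := t * ((D + 1) * c + 1))
      (fun (τ : Tau s Ψ) k => rPoly q t s hs α (τ.1.1 k) (τ.1.2 k))) (fun k => ((a k : ℕ) : ZMod q))
      = ∑ τ : Tau s Ψ,
        ∏ k, (rPoly q t s hs α (τ.1.1 k) (τ.1.2 k)).eval ((a k : ℕ) : ZMod q) := by
    intro a
    rw [tableEval_sumTable _ (fun τ k => natDegree_rPoly hqt hts hs ht α _ _)]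
  rw [Finset.sum_congr rfl fun a _ => h1 a, Finset.sum_comm]
  have h2 : ∀ τ : Tau s Ψ,
      ∑ a : Fin R → Fin t, ∏ k, (rPoly q t s hs α (τ.1.1 k) (τ.1.2 k)).eval ((a k : ℕ) : ZMod q)
        = if τ.1.2 = (fun k i => α (τ.1.1 k i)) then 1 else 0 := by
    intro τ
    have h3 := Finset.prod_univ_sum (fun _ : Fin R => (univ : Finset (Fin t)))
      (fun k a => (rPoly q t s hs α (τ.1.1 k) (τ.1.2 k)).eval ((a : ℕ) : ZMod q))
    rw [Fintype.piFinset_univ] at h3
    rw [← h3]
    have h4 : ∀ k, ∑ a : Fin t, (rPoly q t s hs α (τ.1.1 k) (τ.1.2 k)).eval ((a : ℕ) : ZMod q)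
        = if τ.1.2 k = (fun i => α (τ.1.1 k i)) then 1 else 0 := fun k =>
      sum_rPoly hqt hts hs α _ _ (τ.2.1 k)
    simp only [h4]
    by_cases h : τ.1.2 = (fun k i => α (τ.1.1 k i))
    · rw [if_pos h]
      apply Finset.prod_eq_one
      intro k _
      rw [if_pos (congrFun h k)]
    · rw [if_neg h]
      obtain ⟨k, hk⟩ := Function.ne_iff.mp h
      exact Finset.prod_eq_zero (Finset.mem_univ k) (by rw [if_neg hk])
  rw [Finset.sum_congr rfl fun τ _ => h2 τ, Finset.sum_boole]
  congr 1
  apply Finset.card_bij (fun τ _ => τ.1.1)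
  · intro τ hτ
    simp only [Finset.mem_filter, Finset.mem_univ, true_and] at hτ ⊢
    rw [← hτ]; exact τ.2
  · intro τ hτ τ' hτ' h
    simp only [Finset.mem_filter, Finset.mem_univ, true_and] at hτ hτ'
    apply Subtype.ext
    apply Prod.ext h
    rw [hτ, hτ', h]
  · intro v hv
    simp only [Finset.mem_filter, Finset.mem_univ, true_and] at hv
    exact ⟨⟨(v, fun k i => α (v k i)), hv⟩, by simp, rfl⟩

end

/-- **Block engine.** -/
theorem engineB {n R D c t s q : ℕ} [hq : Fact q.Prime] (hs : 0 < s) (ht : 0 < t) (hts : n ≤ t * s)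
    (hqt : t ≤ q) (hqn : (n ^ (D + 1)) ^ R < q) (hqD : 3 * (R * (t * ((D + 1) * c + 1))) ≤ q)
    {W : Type} [Fintype W] [Nonempty W]
    (cA cB : W → SimpleGraph (Fin n) → Prop)
    (α : W → SimpleGraph (Fin n) → Fin n → Fin c → Bool)
    (Ψ : W → SimpleGraph (Fin n) → (Fin R → Fin (D + 1) → Fin n) →
      (Fin R → Fin (D + 1) → Fin c → Bool) → Prop)
    {YES NO : SimpleGraph (Fin n) → SimpleGraph (Fin n) → Prop}
    (hyes : ∀ x y, YES x y → ∃ w, cA w x ∧ cB w y ∧
      ∀ v, SameBlock s v → ¬ Ψ w y v (fun k i => α w x (v k i)))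
    (hno : ∀ x y, NO x y → ∀ w, cA w x → cB w y →
      ∃ v, SameBlock s v ∧ Ψ w y v (fun k i => α w x (v k i)))
    {p0 b : ℕ} (hW : Fintype.card W ≤ 2 ^ p0) (hb : q ≤ 2 ^ b) :
    HasMA n ((p0 + b * (t * ((D + 1) * c + 1)) ^ R + (b * (R * s * c) + 1) : ℕ) : ℝ) YES NO := by
  have hcardF : Fintype.card (ZMod q) = q := ZMod.card q
  have hqpos : 0 < q := hq.out.pos
  refine HasMA.of_finite (Fin R → ZMod q)
    (W × ((Fin R → Fin (t * ((D + 1) * c + 1))) → ZMod q)) (Bool × (Fin R → Fin s → Fin c → ZMod q))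
    ?_ ?_
    (fun r w x => (decide (cA w.1 x), fun k l j => (colPoly q t s (α w.1 x) l j).eval (r k)))
    (fun r w y z => decide (z.1 = true ∧ cB w.1 y ∧
      ∑ a : Fin R → Fin t, tableEval w.2 (fun k => ((a k : ℕ) : ZMod q)) = 0 ∧
      tableEval w.2 r = bobVal q t s hs (Ψ w.1 y) r z.2)) ?_ ?_
  · rw [Fintype.card_prod, Fintype.card_fun, Fintype.card_fun, hcardF, Fintype.card_fin,
      Fintype.card_fin, pow_add]
    refine Nat.mul_le_mul hW ?_
    rw [pow_mul]
    exact Nat.pow_le_pow_left hb _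
  · rw [Fintype.card_prod, Fintype.card_fun, Fintype.card_fun, Fintype.card_fun, hcardF,
      Fintype.card_fin, Fintype.card_fin, Fintype.card_fin, Fintype.card_bool]
    rw [pow_add, pow_mul, mul_comm]
    refine Nat.mul_le_mul ?_ (by norm_num)
    rw [← pow_mul, ← pow_mul]
    have : c * (s * R) = R * s * c := by ring
    rw [this]
    exact Nat.pow_le_pow_left hb _
  · intro x y hxy
    obtain ⟨w, hA, hB, hΨ⟩ := hyes x y hxy
    refine ⟨(w, trueTable q t s hs (Ψ w y) (α w x)), ?_⟩
    have : (univ.filter (fun r : Fin R → ZMod q => decide ((decide (cA w x)) = true ∧ cB w y ∧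
      ∑ a : Fin R → Fin t, tableEval (trueTable q t s hs (Ψ w y) (α w x))
        (fun k => ((a k : ℕ) : ZMod q)) = 0 ∧
      tableEval (trueTable q t s hs (Ψ w y) (α w x)) r = bobVal q t s hs (Ψ w y) r
        (fun k l j => (colPoly q t s (α w x) l j).eval (r k))) = true)) = univ := by
      apply Finset.filter_true_of_mem
      intro r _
      rw [decide_eq_true_iff]
      refine ⟨by simpa using hA, hB, ?_, tableEval_trueTable hqt hts hs ht _ _ r⟩
      rw [gridSum_trueTable hqt hts hs ht]
      have : (univ.filter (fun v : Fin R → Fin (D + 1) → Fin n =>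
          SameBlock s v ∧ Ψ w y v (fun k i => α w x (v k i)))) = ∅ :=
        Finset.filter_false_of_mem (fun v _ h => hΨ v h.1 h.2)
      rw [this]; simp
    simp only
    rw [this, Finset.card_univ]
    omega
  · rintro x y hxy ⟨w, T⟩
    simp only
    by_cases hA : cA w x
    swap
    · rw [Finset.filter_false_of_mem]
      · simp
      · intro r _ h
        rw [decide_eq_true_iff] at h
        exact hA (by simpa using h.1)
    by_cases hB : cB w y
    swap
    · rw [Finset.filter_false_of_mem]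
      · simp
      · intro r _ h
        rw [decide_eq_true_iff] at h
        exact hB h.2.1
    obtain ⟨v, hv⟩ := hno x y hxy w hA hB
    by_cases hsum : ∑ a : Fin R → Fin t, tableEval T (fun k => ((a k : ℕ) : ZMod q)) = 0
    swap
    · rw [Finset.filter_false_of_mem]
      · simp
      · intro r _ h
        rw [decide_eq_true_iff] at h
        exact hsum h.2.2.1
    -- the table differs from the true one
    set T0 := trueTable q t s hs (Ψ w y) (α w x) with hT0
    have hne : (fun e => T e - T0 e) ≠ 0 := by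
      intro h0
      have hTT : T = T0 := by
        funext e
        exact sub_eq_zero.mp (congrFun h0 e)
      rw [hTT, hT0, gridSum_trueTable hqt hts hs ht] at hsum
      rw [ZMod.natCast_eq_zero_iff] at hsum
      have hpos : 0 < (univ.filter (fun v : Fin R → Fin (D + 1) → Fin n =>
          SameBlock s v ∧ Ψ w y v (fun k i => α w x (v k i)))).card :=
        Finset.card_pos.mpr ⟨v, by simp [hv]⟩
      have hle : (univ.filter (fun v : Fin R → Fin (D + 1) → Fin n =>
          SameBlock s v ∧ Ψ w y v (fun k i => α w x (v k i)))).card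
          ≤ (n ^ (D + 1)) ^ R := by
        refine (Finset.card_le_univ _).trans ?_
        simp
      have := Nat.le_of_dvd hpos hsum
      omega
    have hz := card_zeros_le hne
    rw [hcardF] at hz
    have hsub : (univ.filter (fun r : Fin R → ZMod q => decide ((decide (cA w x)) = true ∧ cB w y ∧
      ∑ a : Fin R → Fin t, tableEval T (fun k => ((a k : ℕ) : ZMod q)) = 0 ∧
      tableEval T r = bobVal q t s hs (Ψ w y) r
        (fun k l j => (colPoly q t s (α w x) l j).eval (r k))) = true))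
        ⊆ univ.filter (fun r : Fin R → ZMod q => tableEval (fun e => T e - T0 e) r = 0) := by
      intro r hr
      simp only [Finset.mem_filter, Finset.mem_univ, true_and, decide_eq_true_iff] at hr ⊢
      rw [tableEval_sub, sub_eq_zero, hT0, tableEval_trueTable hqt hts hs ht]
      exact hr.2.2.2
    have hcard := Finset.card_le_card hsub
    rw [Fintype.card_fun, hcardF, Fintype.card_fin]
    set Z := (univ.filter (fun r : Fin R → ZMod q => tableEval (fun e => T e - T0 e) r = 0)).card
    have hz' : Z * q ≤ R * (t * ((D + 1) * c + 1)) * q ^ R := by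
      refine le_trans (le_of_eq ?_) hz
      congr 1
      apply Finset.card_bij (fun a _ => a)
      · intro a ha; simpa using ha
      · intro a _ b _ h; exact h
      · intro a ha; exact ⟨a, by simpa using ha, rfl⟩
    have h3 : 3 * Z * q ≤ q ^ R * q := by
      calc 3 * Z * q = 3 * (Z * q) := by ring
        _ ≤ 3 * (R * (t * ((D + 1) * c + 1)) * q ^ R) := Nat.mul_le_mul_left _ hz'
        _ = (3 * (R * (t * ((D + 1) * c + 1)))) * q ^ R := by ring
        _ ≤ q * q ^ R := Nat.mul_le_mul_right _ hqD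
        _ = q ^ R * q := by ring
    have h4 : 3 * Z ≤ q ^ R := Nat.le_of_mul_le_mul_right h3 hqpos
    omega

end Helper67_MA2
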