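import Pool.Agent.Helper42_MA.Alt

set_option autoImplicit false

namespace Helper67_MA2

open Finset Classical Helper42_MA

section
variable {n : ℕ}

/-- The restriction of a graph to the edges inside the classes of `bl`. -/
def restr (bl : Fin n → ℕ) (x : SimpleGraph (Fin n)) : SimpleGraph (Fin n) where
  Adj u v := x.Adj u v ∧ bl u = bl v
  symm := ⟨fun _ _ h => ⟨h.1.symm, h.2.symm⟩⟩
  loopless := ⟨fun _ h => h.1.ne rfl⟩

theorem restr_le (bl : Fin n → ℕ) (x : SimpleGraph (Fin n)) : restr bl x ≤ x :=
  fun _ _ h => h.1

theorem restr_sup_block (bl : Fin n → ℕ) (x y : SimpleGraph (Fin n)) {u v : Fin n}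
    (h : (restr bl x ⊔ restr bl y).Reachable u v) : bl u = bl v := by
  obtain ⟨p⟩ := h
  induction p with
  | nil => rfl
  | cons hadj _ ih =>
    rw [SimpleGraph.sup_adj] at hadj
    rcases hadj with h | h
    · exact h.2.trans ih
    · exact h.2.trans ih

theorem exU_congr (f f2 : Fin n → Fin n) (y : SimpleGraph (Fin n)) (s : Fin n) :
    ∀ i : ℕ, (∀ u ∈ exU f y s i, f2 u = f u) → exU f2 y s i = exU f y s i := by
  intro i
  induction i with
  | zero => intro _; rfl
  | succ i ih =>
    intro h
    have h1 := ih (fun u hu => h u (exU_mono f y s i hu))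
    have h2 : (exU f y s i).image f2 = (exU f y s i).image f := by
      apply Finset.image_congr
      intro u hu
      exact h u (exU_mono f y s i hu)
    rw [exU, exU, h1, h2]

theorem exT_congr (f f2 : Fin n → Fin n) (y : SimpleGraph (Fin n)) (s : Fin n) (i : ℕ)
    (h : ∀ u ∈ exU f y s i, f2 u = f u) : exT f2 y s i = exT f y s i := by
  unfold exT
  rw [exU_congr f f2 y s i h]
  congr 2
  apply Finset.image_congr
  intro u hu
  exact h u hu

/-- Without connectivity: either all lookups are new or the whole component has been looked up. -/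
theorem exU_full (x y : SimpleGraph (Fin n)) (f : Fin n → Fin n)
    (hf : ∀ v, x.Reachable v (f v))
    (hf2 : ∀ S : Finset (Fin n), (∀ u ∈ S, f u ∈ S) → ∀ v ∈ S, ∀ w, x.Reachable v w → w ∈ S)
    (s : Fin n) (i : ℕ) :
    (exU f y s i).card = i ∨ exU f y s i = compF (x ⊔ y) s := by
  have hTsub : ∀ i, exT f y s i ⊆ compF (x ⊔ y) s := fun i w hw =>
    (mem_compF _ _ _).mpr (exT_reachable x y f hf s i w hw)
  induction i with
  | zero => left; simp [exU]
  | succ i ih =>
    by_cases hmem : nx y s (exU f y s i) ((exU f y s i).image f) ∈ exU f y s i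
    · right
      have hs : s ∈ exU f y s i := by
        by_contra hs
        have : nx y s (exU f y s i) ((exU f y s i).image f) = s := by
          unfold nx; rw [if_pos hs]
        rw [this] at hmem
        exact hs hmem
      have hemp : ¬ (clB y (insert s ((exU f y s i).image f)) \ exU f y s i).Nonempty := by
        intro hne
        have : nx y s (exU f y s i) ((exU f y s i).image f)
            = (clB y (insert s ((exU f y s i).image f)) \ exU f y s i).min' hne := by
          unfold nx; rw [if_neg (by simpa using hs), dif_pos hne]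
        rw [this] at hmem
        exact (Finset.mem_sdiff.mp (Finset.min'_mem _ hne)).2 hmem
      have hTU : exT f y s i ⊆ exU f y s i := by
        intro w hw
        by_contra hcon
        exact hemp ⟨w, Finset.mem_sdiff.mpr ⟨hw, hcon⟩⟩
      have hclosedf : ∀ u ∈ exT f y s i, f u ∈ exT f y s i := by
        intro u hu
        exact subset_clB y _ (Finset.mem_insert_of_mem
          (Finset.mem_image_of_mem f (hTU hu)))
      have hclosedy : ∀ u ∈ exT f y s i, ∀ w, y.Reachable u w → w ∈ exT f y s i := by
        intro u hu w hw
        rw [exT, mem_clB] at hu ⊢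
        obtain ⟨t, ht, htu⟩ := hu
        exact ⟨t, ht, htu.trans hw⟩
      have hclosedG : ∀ u w, (x ⊔ y).Walk u w → u ∈ exT f y s i → w ∈ exT f y s i := by
        intro u w p
        induction p with
        | nil => exact id
        | cons hadj _ ihp =>
          intro hu
          apply ihp
          rw [SimpleGraph.sup_adj] at hadj
          rcases hadj with ha | ha
          · exact hf2 _ hclosedf _ hu _ ha.reachable
          · exact hclosedy _ hu _ ha.reachable
      rw [exU, Finset.insert_eq_of_mem hmem]
      apply Finset.Subset.antisymm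
      · exact (exU_subset_exT f y s i).trans (hTsub i)
      · intro w hw
        obtain ⟨p⟩ := (mem_compF _ _ _).mp hw
        exact hTU (hclosedG s w p (start_mem_exT f y s i))
    · rcases ih with ih | ih
      · left
        rw [exU, Finset.card_insert_of_notMem hmem, ih]
      · exfalso
        apply hmem
        rw [ih]
        exact hTsub i (by rw [← ih]; exact nx_mem _ _ _ _)

/-! ### the two-level exploration -/

/-- The starting point of the next run. -/
noncomputable def sd (y : SimpleGraph (Fin n)) (s : Fin n) (U F W : Finset (Fin n)) : Fin n :=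
  if s ∉ U then s else
    if h : (clB y (insert s F) \ W).Nonempty then (clB y (insert s F) \ W).min' h else s

/-- The looked up vertices and the discovered vertices after `j` runs. -/
noncomputable def stp (f F : Fin n → Fin n) (y' y : SimpleGraph (Fin n)) (s : Fin n) (D : ℕ) :
    ℕ → Finset (Fin n) × Finset (Fin n)
  | 0 => (∅, ∅)
  | j + 1 =>
    ((stp f F y' y s D j).1 ∪ exU f y' (sd y s (stp f F y' y s D j).1
        ((stp f F y' y s D j).1 ∪ (stp f F y' y s D j).1.image F) (stp f F y' y s D j).2) (D + 1),
     (stp f F y' y s D j).2 ∪ exT f y' (sd y s (stp f F y' y s D j).1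
        ((stp f F y' y s D j).1 ∪ (stp f F y' y s D j).1.image F) (stp f F y' y s D j).2) (D + 1))

/-- The starting point of run number `j`. -/
noncomputable def seed (f F : Fin n → Fin n) (y' y : SimpleGraph (Fin n)) (s : Fin n) (D j : ℕ) :
    Fin n :=
  sd y s (stp f F y' y s D j).1
    ((stp f F y' y s D j).1 ∪ (stp f F y' y s D j).1.image F) (stp f F y' y s D j).2

theorem stp_succ (f F : Fin n → Fin n) (y' y : SimpleGraph (Fin n)) (s : Fin n) (D j : ℕ) :
    stp f F y' y s D (j + 1) =
      ((stp f F y' y s D j).1 ∪ exU f y' (seed f F y' y s D j) (D + 1),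
       (stp f F y' y s D j).2 ∪ exT f y' (seed f F y' y s D j) (D + 1)) := rfl

theorem stp1_mono (f F : Fin n → Fin n) (y' y : SimpleGraph (Fin n)) (s : Fin n) (D : ℕ)
    {j k : ℕ} (h : j ≤ k) : (stp f F y' y s D j).1 ⊆ (stp f F y' y s D k).1 := by
  induction h with
  | refl => exact Finset.Subset.refl _
  | step _ ih => exact ih.trans (by rw [stp_succ]; exact Finset.subset_union_left)

theorem stp2_mono (f F : Fin n → Fin n) (y' y : SimpleGraph (Fin n)) (s : Fin n) (D : ℕ)
    {j k : ℕ} (h : j ≤ k) : (stp f F y' y s D j).2 ⊆ (stp f F y' y s D k).2 := by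
  induction h with
  | refl => exact Finset.Subset.refl _
  | step _ ih => exact ih.trans (by rw [stp_succ]; exact Finset.subset_union_left)

theorem stp1_subset (f F : Fin n → Fin n) (y' y : SimpleGraph (Fin n)) (s : Fin n) (D : ℕ)
    (j : ℕ) : (stp f F y' y s D j).1 ⊆ (stp f F y' y s D j).2 := by
  induction j with
  | zero => exact Finset.Subset.refl _
  | succ j ih =>
    rw [stp_succ]
    exact Finset.union_subset_union ih (exU_subset_exT _ _ _ _)

theorem mem_stp1 (f F : Fin n → Fin n) (y' y : SimpleGraph (Fin n)) (s : Fin n) (D : ℕ)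
    (j : ℕ) (u : Fin n) (hu : u ∈ (stp f F y' y s D j).1) :
    ∃ k < j, u ∈ exU f y' (seed f F y' y s D k) (D + 1) := by
  induction j with
  | zero => exact absurd hu (Finset.notMem_empty u)
  | succ j ih =>
    rw [stp_succ, Finset.mem_union] at hu
    rcases hu with hu | hu
    · obtain ⟨k, hk, h⟩ := ih hu
      exact ⟨k, by omega, h⟩
    · exact ⟨j, by omega, hu⟩

theorem start_mem_exU (f : Fin n → Fin n) (y : SimpleGraph (Fin n)) (s : Fin n) (i : ℕ) :
    s ∈ exU f y s (i + 1) := by
  induction i with
  | zero =>
    rw [exU]
    simp [exU, nx]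
  | succ i ih => exact exU_mono f y s _ ih

theorem seed_zero (f F : Fin n → Fin n) (y' y : SimpleGraph (Fin n)) (s : Fin n) (D : ℕ) :
    seed f F y' y s D 0 = s := by
  simp [seed, sd, stp]

theorem start_mem_stp1 (f F : Fin n → Fin n) (y' y : SimpleGraph (Fin n)) (s : Fin n) (D : ℕ)
    (j : ℕ) : s ∈ (stp f F y' y s D (j + 1)).1 := by
  apply stp1_mono f F y' y s D (show 1 ≤ j + 1 by omega)
  rw [stp_succ, seed_zero]
  exact Finset.mem_union_right _ (start_mem_exU f y' s D)

/-- Locality. -/
theorem stp_congr (f F f2 F2 : Fin n → Fin n) (y' y : SimpleGraph (Fin n)) (s : Fin n) (D : ℕ) :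
    ∀ j : ℕ, (∀ u ∈ (stp f F y' y s D j).1, f2 u = f u ∧ F2 u = F u) →
      stp f2 F2 y' y s D j = stp f F y' y s D j := by
  intro j
  induction j with
  | zero => intro _; rfl
  | succ j ih =>
    intro h
    have h1 := ih (fun u hu => h u (stp1_mono f F y' y s D (Nat.le_succ j) hu))
    have h2 : (stp f F y' y s D j).1.image F2 = (stp f F y' y s D j).1.image F := by
      apply Finset.image_congr
      intro u hu
      exact (h u (stp1_mono f F y' y s D (Nat.le_succ j) hu)).2
    have h3 : seed f2 F2 y' y s D j = seed f F y' y s D j := by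
      unfold seed
      rw [h1, h2]
    have h4 : ∀ u ∈ exU f y' (seed f F y' y s D j) (D + 1), f2 u = f u := by
      intro u hu
      apply (h u _).1
      rw [stp_succ]
      exact Finset.mem_union_right _ hu
    rw [stp_succ, stp_succ, h1, h3, exU_congr f f2 y' _ _ h4, exT_congr f f2 y' _ _ h4]

/-- Everything discovered is reachable. -/
theorem stp_reachable (x y : SimpleGraph (Fin n)) (bl : Fin n → ℕ) (s : Fin n) (D : ℕ) (j : ℕ) :
    (∀ w ∈ (stp (ptr (restr bl x)) (ptr x) (restr bl y) y s D j).2, (x ⊔ y).Reachable s w) ∧
    (x ⊔ y).Reachable s (seed (ptr (restr bl x)) (ptr x) (restr bl y) y s D j) := by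
  have key : ∀ j, (∀ w ∈ (stp (ptr (restr bl x)) (ptr x) (restr bl y) y s D j).2,
      (x ⊔ y).Reachable s w) →
      (x ⊔ y).Reachable s (seed (ptr (restr bl x)) (ptr x) (restr bl y) y s D j) := by
    intro j hj
    unfold seed sd
    split_ifs with h1 h2
    · have h3 := (Finset.mem_sdiff.mp (Finset.min'_mem _ h2)).1
      rw [mem_clB] at h3
      obtain ⟨a, ha, hw⟩ := h3
      refine SimpleGraph.Reachable.trans ?_ (hw.mono le_sup_right)
      rw [Finset.mem_insert, Finset.mem_union] at ha
      rcases ha with rfl | ha | ha
      · exact SimpleGraph.Reachable.refl _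
      · exact hj a (stp1_subset _ _ _ _ _ _ _ ha)
      · obtain ⟨u, hu, rfl⟩ := Finset.mem_image.mp ha
        exact (hj u (stp1_subset _ _ _ _ _ _ _ hu)).trans ((ptr_reachable x u).mono le_sup_left)
    · exact SimpleGraph.Reachable.refl s
    · exact SimpleGraph.Reachable.refl s
  induction j with
  | zero =>
    refine ⟨fun w hw => absurd hw (Finset.notMem_empty w), ?_⟩
    rw [seed_zero]
  | succ j ih =>
    have h1 : ∀ w ∈ (stp (ptr (restr bl x)) (ptr x) (restr bl y) y s D (j + 1)).2,
        (x ⊔ y).Reachable s w := by
      intro w hw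
      rw [stp_succ, Finset.mem_union] at hw
      rcases hw with hw | hw
      · exact ih.1 w hw
      · refine ih.2.trans ?_
        exact (exT_reachable (restr bl x) (restr bl y) _ (ptr_reachable _) _ _ w hw).mono
          (sup_le_sup (restr_le _ _) (restr_le _ _))
    exact ⟨h1, key _ h1⟩

/-- The lookups of one run stay in the block of the starting point. -/
theorem exTuple_block (x y : SimpleGraph (Fin n)) (bl : Fin n → ℕ) (e : Fin n) (D : ℕ)
    (i : Fin (D + 1)) :
    bl (exTuple (D + 1) (ptr (restr bl x)) (restr bl y) e i) = bl e := by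
  apply Eq.symm
  apply restr_sup_block bl x y
  apply exT_reachable (restr bl x) (restr bl y) _ (ptr_reachable _) e (D + 1)
  apply exU_subset_exT
  have h := exTuple_image (D := D + 1) (ptr (restr bl x)) (restr bl y) e (D + 1) le_rfl
  rw [← h]
  apply Finset.mem_image_of_mem
  exact Finset.mem_filter.mpr ⟨Finset.mem_univ _, i.2⟩

theorem mem_exU_iff (f : Fin n → Fin n) (y : SimpleGraph (Fin n)) (e : Fin n) (D : ℕ) (u : Fin n) :
    u ∈ exU f y e (D + 1) ↔ ∃ i : Fin (D + 1), exTuple (D + 1) f y e i = u := by
  have h := exTuple_image (D := D + 1) f y e (D + 1) le_rfl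
  rw [← h]
  simp only [Finset.mem_image, Finset.mem_filter, Finset.mem_univ, true_and]
  constructor
  · rintro ⟨i, _, h⟩; exact ⟨i, h⟩
  · rintro ⟨i, h⟩; exact ⟨i, i.2, h⟩

/-- Growth of the two-level exploration in a connected union graph. -/
theorem stp_growth (x y : SimpleGraph (Fin n)) (bl : Fin n → ℕ) (hG : (x ⊔ y).Connected)
    (s : Fin n) (D : ℕ) (j : ℕ) :
    (∃ e, D + 1 ≤ (exT (ptr (restr bl x)) (restr bl y) e (D + 1)).card ∧
      exT (ptr (restr bl x)) (restr bl y) e (D + 1)
        ⊆ (stp (ptr (restr bl x)) (ptr x) (restr bl y) y s D j).2) ∨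
    (stp (ptr (restr bl x)) (ptr x) (restr bl y) y s D j).2 = univ ∨
    ((stp (ptr (restr bl x)) (ptr x) (restr bl y) y s D j).1
        = (stp (ptr (restr bl x)) (ptr x) (restr bl y) y s D j).2 ∧
      ∃ C : Finset (restr bl x ⊔ restr bl y).ConnectedComponent, C.card = j ∧
        ∀ v, v ∈ (stp (ptr (restr bl x)) (ptr x) (restr bl y) y s D j).2 ↔
          (restr bl x ⊔ restr bl y).connectedComponentMk v ∈ C) := by
  induction j with
  | zero =>
    right; right
    refine ⟨rfl, ∅, rfl, fun v => ?_⟩
    simp [stp]
  | succ j ih =>
    rcases ih with ⟨e, h1, h2⟩ | h | ⟨h1, C, hC, hmem⟩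
    · left
      exact ⟨e, h1, h2.trans (stp2_mono _ _ _ _ _ _ (Nat.le_succ j))⟩
    · right; left
      apply Finset.eq_univ_of_forall
      intro w
      apply stp2_mono _ _ _ _ _ _ (Nat.le_succ j)
      rw [h]; exact Finset.mem_univ w
    · by_cases he : seed (ptr (restr bl x)) (ptr x) (restr bl y) y s D j
          ∈ (stp (ptr (restr bl x)) (ptr x) (restr bl y) y s D j).2
      · -- closed: everything has been discovered
        right; left
        set U := (stp (ptr (restr bl x)) (ptr x) (restr bl y) y s D j).1 with hU
        set W := (stp (ptr (restr bl x)) (ptr x) (restr bl y) y s D j).2 with hW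
        have hs : s ∈ U := by
          by_contra hs
          have h3 : seed (ptr (restr bl x)) (ptr x) (restr bl y) y s D j = s := by
            unfold seed sd
            rw [← hU, if_pos hs]
          rw [h3, ← h1] at he
          exact hs he
        have hemp : ¬ (clB y (insert s (U ∪ U.image (ptr x))) \ W).Nonempty := by
          intro hne
          have h3 : seed (ptr (restr bl x)) (ptr x) (restr bl y) y s D j
              = (clB y (insert s (U ∪ U.image (ptr x))) \ W).min' hne := by
            unfold seed sd
            rw [← hU, ← hW, if_neg (by simpa using hs), dif_pos hne]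
          rw [h3] at he
          exact (Finset.mem_sdiff.mp (Finset.min'_mem _ hne)).2 he
        have hsub : clB y (insert s (U ∪ U.image (ptr x))) ⊆ W := by
          intro w hw
          by_contra hcon
          exact hemp ⟨w, Finset.mem_sdiff.mpr ⟨hw, hcon⟩⟩
        have hcx : ∀ u ∈ W, ptr x u ∈ W := by
          intro u hu
          apply hsub
          apply subset_clB
          apply Finset.mem_insert_of_mem
          apply Finset.mem_union_right
          exact Finset.mem_image_of_mem _ (by rw [h1]; exact hu)
        have hcy : ∀ u ∈ W, ∀ w, y.Reachable u w → w ∈ W := by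
          intro u hu w hw
          apply hsub
          rw [mem_clB]
          exact ⟨u, Finset.mem_insert_of_mem (Finset.mem_union_left _ (by rw [h1]; exact hu)), hw⟩
        have hclosedG : ∀ u w, (x ⊔ y).Walk u w → u ∈ W → w ∈ W := by
          intro u w p
          induction p with
          | nil => exact id
          | cons hadj _ ihp =>
            intro hu
            apply ihp
            rw [SimpleGraph.sup_adj] at hadj
            rcases hadj with ha | ha
            · exact ptr_closed x _ hcx _ hu _ ha.reachable
            · exact hcy _ hu _ ha.reachable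
        apply Finset.eq_univ_of_forall
        intro w
        apply stp2_mono _ _ _ _ _ _ (Nat.le_succ j)
        obtain ⟨p⟩ := hG.preconnected s w
        exact hclosedG s w p (by rw [← h1]; exact hs)
      · rcases exU_full (restr bl x) (restr bl y) (ptr (restr bl x)) (ptr_reachable _)
          (ptr_closed _) (seed (ptr (restr bl x)) (ptr x) (restr bl y) y s D j) (D + 1) with h3 | h3
        · left
          refine ⟨seed (ptr (restr bl x)) (ptr x) (restr bl y) y s D j, ?_, ?_⟩
          · conv_lhs => rw [← h3]
            exact Finset.card_le_card (exU_subset_exT _ _ _ _)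
          · rw [stp_succ]
            exact Finset.subset_union_right
        · right; right
          have h4 : exT (ptr (restr bl x)) (restr bl y)
              (seed (ptr (restr bl x)) (ptr x) (restr bl y) y s D j) (D + 1)
              = compF (restr bl x ⊔ restr bl y)
                (seed (ptr (restr bl x)) (ptr x) (restr bl y) y s D j) := by
            apply Finset.Subset.antisymm
            · intro w hw
              exact (mem_compF _ _ _).mpr
                (exT_reachable (restr bl x) (restr bl y) _ (ptr_reachable _) _ _ w hw)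
            · rw [← h3]; exact exU_subset_exT _ _ _ _
          rw [stp_succ, h3, h4]
          refine ⟨by simp only [h1], insert ((restr bl x ⊔ restr bl y).connectedComponentMk
            (seed (ptr (restr bl x)) (ptr x) (restr bl y) y s D j)) C, ?_, ?_⟩
          · rw [Finset.card_insert_of_notMem, hC]
            intro hcon
            exact he ((hmem _).mpr hcon)
          · intro v
            rw [Finset.mem_union, hmem, Finset.mem_insert, mem_compF, or_comm]
            apply or_congr _ Iff.rfl
            rw [SimpleGraph.ConnectedComponent.eq]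
            exact ⟨fun h => h.symm, fun h => h.symm⟩

end

end Helper67_MA2
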